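import Pool.Agent.H64.SR.Stm

set_option autoImplicit false

/-! # SR-BK (helper48): the last column -/

namespace Pool.Agent.H64.SR

open Set Filter Topology MeasureTheory
open scoped ENNReal

theorem bk_low (m M K a b : ℝ) (hm : 1 ≤ m) (hM : m ≤ M) (hK : 0 ≤ K) (ha : 0 < a) (hb : 0 < b)
    (ha2 : 4 / Real.pi * (M - 1 / 4) ≤ a ^ 2) (hb2 : 4 / Real.pi * (m - 1 / 4) ≤ b ^ 2) :
    1 / Real.pi * Real.sqrt ((m - 1 / 4) / M) / (K + 1) ≤
      a / (2 * M * (2 * M - 1)) * (M * b / (K + 1 / 2) + 1) := by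
  have hpi := Real.pi_pos
  have hM0 : 0 < M := by linarith
  have hM1 : 0 < 2 * M - 1 := by linarith
  have h1 : a * b / (2 * (2 * M - 1) * (K + 1)) ≤
      a / (2 * M * (2 * M - 1)) * (M * b / (K + 1 / 2) + 1) := by
    have h2 : M * b / (K + 1) ≤ M * b / (K + 1 / 2) + 1 := by
      have h3 : M * b / (K + 1) ≤ M * b / (K + 1 / 2) :=
        div_le_div_of_nonneg_left (by positivity) (by positivity) (by linarith)
      linarith
    have h4 : a * b / (2 * (2 * M - 1) * (K + 1)) =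
        a / (2 * M * (2 * M - 1)) * (M * b / (K + 1)) := by
      field_simp
    rw [h4]
    exact mul_le_mul_of_nonneg_left h2 (by positivity)
  refine le_trans ?_ h1
  have h5 : 0 ≤ a * b / (2 * (2 * M - 1) * (K + 1)) := by positivity
  refine le_of_sq_le_sq ?_ h5
  have h6 : (1 / Real.pi * Real.sqrt ((m - 1 / 4) / M) / (K + 1)) ^ 2 =
      1 / Real.pi ^ 2 * ((m - 1 / 4) / M) / (K + 1) ^ 2 := by
    rw [div_pow, mul_pow, Real.sq_sqrt (div_nonneg (by linarith) hM0.le), div_pow, one_pow]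
  rw [h6]
  have h7 : (a * b / (2 * (2 * M - 1) * (K + 1))) ^ 2 =
      a ^ 2 * b ^ 2 / (4 * (2 * M - 1) ^ 2) / (K + 1) ^ 2 := by
    field_simp
    ring
  rw [h7]
  refine div_le_div_of_nonneg_right ?_ (by positivity)
  have h8 : 4 / Real.pi * (M - 1 / 4) * (4 / Real.pi * (m - 1 / 4)) ≤ a ^ 2 * b ^ 2 :=
    mul_le_mul ha2 hb2 (mul_nonneg (by positivity) (by linarith)) (by positivity)
  have h9 : 1 / Real.pi ^ 2 * ((m - 1 / 4) / M) ≤
      4 / Real.pi * (M - 1 / 4) * (4 / Real.pi * (m - 1 / 4)) / (4 * (2 * M - 1) ^ 2) := by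
    have e : 4 / Real.pi * (M - 1 / 4) * (4 / Real.pi * (m - 1 / 4)) / (4 * (2 * M - 1) ^ 2) =
        1 / Real.pi ^ 2 * ((m - 1 / 4) * (4 * (M - 1 / 4) / (2 * M - 1) ^ 2)) := by
      field_simp
    rw [e]
    refine mul_le_mul_of_nonneg_left ?_ (by positivity)
    rw [div_eq_mul_inv]
    refine mul_le_mul_of_nonneg_left ?_ (by linarith)
    rw [inv_eq_one_div, div_le_div_iff₀ hM0 (by positivity)]
    nlinarith
  exact h9.trans (div_le_div_of_nonneg_right h8 (by positivity))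

theorem bk_up (m M K a b : ℝ) (hm : 1 ≤ m) (hM : m ≤ M) (hK : 0 ≤ K) (hKM : K + 1 ≤ M)
    (ha : 0 < a) (hb : 0 < b) (ha2 : a ^ 2 ≤ 4 / Real.pi * M) (hb2 : b ^ 2 ≤ 4 / Real.pi * m)
    (hb3 : m ≤ b ^ 2) :
    (a / (2 * M * (2 * M - 1)) * (M * b / (K + 1 / 2) + 1)) ^ 2 ≤
      1 / Real.pi ^ 2 * (1 + 3 / m) * (m / M) / (K + 1 / 2) ^ 2 *
        (1 + 3 * (K + 1) / (M * Real.sqrt m)) := by
  have hpi := Real.pi_pos
  have hm0 : 0 < m := by linarith
  have hM0 : 0 < M := by linarith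
  have hM1 : 0 < 2 * M - 1 := by linarith
  have hκ : 0 < K + 1 / 2 := by linarith
  have hsb : Real.sqrt m ≤ b := by
    rw [← Real.sqrt_sq hb.le]
    exact Real.sqrt_le_sqrt hb3
  have hs1 : 1 ≤ Real.sqrt m := by
    rw [← Real.sqrt_one]
    exact Real.sqrt_le_sqrt hm
  have hs0 : 0 < Real.sqrt m := by linarith
  set x : ℝ := (K + 1 / 2) / (M * b) with hx
  have hx0 : 0 ≤ x := by positivity
  have hx1 : x ≤ 1 := by
    rw [hx, div_le_one (by positivity)]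
    have : M * 1 ≤ M * b := mul_le_mul_of_nonneg_left (by linarith) hM0.le
    linarith
  have hx2 : x ≤ (K + 1) / (M * Real.sqrt m) := by
    rw [hx]
    exact div_le_div₀ (by linarith) (by linarith) (by positivity)
      (mul_le_mul_of_nonneg_left hsb hM0.le)
  have h1 : (1 + x) ^ 2 ≤ 1 + 3 * (K + 1) / (M * Real.sqrt m) := by
    have h2 : 3 * (K + 1) / (M * Real.sqrt m) = 3 * ((K + 1) / (M * Real.sqrt m)) := by ring
    rw [h2]
    nlinarith
  have h3 : (a / (2 * M * (2 * M - 1)) * (M * b / (K + 1 / 2) + 1)) ^ 2 =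
      (a ^ 2 * b ^ 2) * (1 / (4 * (2 * M - 1) ^ 2 * (K + 1 / 2) ^ 2)) * (1 + x) ^ 2 := by
    rw [hx]
    field_simp
    ring
  rw [h3]
  have h4 : a ^ 2 * b ^ 2 ≤ 4 / Real.pi * M * (4 / Real.pi * m) :=
    mul_le_mul ha2 hb2 (by positivity) (by positivity)
  have h5 : (a ^ 2 * b ^ 2) * (1 / (4 * (2 * M - 1) ^ 2 * (K + 1 / 2) ^ 2)) ≤
      1 / Real.pi ^ 2 * (1 + 3 / m) * (m / M) / (K + 1 / 2) ^ 2 := by
    have h6 : 4 * M ^ 2 / (2 * M - 1) ^ 2 ≤ 1 + 3 / m := by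
      have h7 : 1 + 3 / M ≤ 1 + 3 / m := by
        have := div_le_div_of_nonneg_left (by norm_num : (0 : ℝ) ≤ 3) hm0 hM
        linarith
      refine le_trans ?_ h7
      have h8 : 1 + 3 / M = (M + 3) / M := by
        field_simp
      rw [h8, div_le_div_iff₀ (by positivity) hM0]
      nlinarith [mul_nonneg (by linarith : (0 : ℝ) ≤ 8 * M - 3) (by linarith : (0 : ℝ) ≤ M - 1)]
    calc (a ^ 2 * b ^ 2) * (1 / (4 * (2 * M - 1) ^ 2 * (K + 1 / 2) ^ 2))
        ≤ (4 / Real.pi * M * (4 / Real.pi * m)) * (1 / (4 * (2 * M - 1) ^ 2 * (K + 1 / 2) ^ 2)) :=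
          mul_le_mul_of_nonneg_right h4 (by positivity)
      _ = (1 / Real.pi ^ 2 * (m / M) / (K + 1 / 2) ^ 2) * (4 * M ^ 2 / (2 * M - 1) ^ 2) := by
          field_simp
      _ ≤ (1 / Real.pi ^ 2 * (m / M) / (K + 1 / 2) ^ 2) * (1 + 3 / m) :=
          mul_le_mul_of_nonneg_left h6 (by positivity)
      _ = _ := by ring
  exact mul_le_mul h5 h1 (by positivity) (by positivity)

theorem bk : S_BK := by
  intro hSQ m k hm
  obtain ⟨h1, h2, -, -⟩ := hSQ
  obtain ⟨a0, -, a2, a3⟩ := h1 (m + k + 1) (by omega)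
  obtain ⟨b0, b1, b2, b3⟩ := h1 m hm
  have h3 := h2 (m + k + 1) (by omega)
  push_cast at h3 a2 a3
  set M : ℝ := (m : ℝ) + k + 1 with hM
  have hm' : (1 : ℝ) ≤ (m : ℝ) := by exact_mod_cast hm
  have hk' : (0 : ℝ) ≤ (k : ℝ) := Nat.cast_nonneg k
  have hM0 : 0 < M := by rw [hM]; positivity
  have hM1 : 0 < 2 * M - 1 := by linarith
  have hbb : bb m k m = -(us (m + k + 1) / (2 * M * (2 * M - 1)) *
      (M * us m / ((k : ℝ) + 1 / 2) + 1)) := by
    unfold bb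
    rw [h3, if_pos rfl, ← hM]
    have e : M - (m : ℝ) - 1 / 2 = (k : ℝ) + 1 / 2 := by
      rw [hM]
      ring
    rw [e]
    ring
  have hpos : 0 < us (m + k + 1) / (2 * M * (2 * M - 1)) *
      (M * us m / ((k : ℝ) + 1 / 2) + 1) := by positivity
  refine ⟨?_, ?_, ?_⟩
  · rw [hbb]
    linarith
  · rw [hbb, neg_neg]
    exact bk_low m M k _ _ hm' (by linarith) hk' a0 b0 a3 b3
  · rw [hbb, neg_sq]
    exact bk_up m M k _ _ hm' (by linarith) hk' (by linarith) a0 b0 a2 b2 b1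

end Pool.Agent.H64.SR
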