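import Pool.Agent.H64.SR.Stm

set_option autoImplicit false

/-! # SR-IV: the sum of `mx * WW` is bounded -/

namespace Pool.Agent.H64.SR

open Set Filter Topology MeasureTheory
open scoped ENNReal
open Pool.Agent.H76.CZ (WW)

namespace IV

theorem hA {σ m K P : ℝ} (hσ : 1 / 5 ≤ σ) (hm : 0 < m) (hK : 0 < K) (hmP : m ≤ P) (hKP : K ≤ P) :
    max 1 ((m / K) ^ (1 / 10 : ℝ)) * (K * P ^ (-σ)) ≤ K ^ (9 / 10 : ℝ) * m ^ (1 / 10 - σ) := by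
  have hP : 0 < P := lt_of_lt_of_le hm hmP
  have hK1 : K ^ (9 / 10 : ℝ) * K ^ (1 / 10 : ℝ) = K := by
    rw [← Real.rpow_add hK]
    norm_num
  have hK2 : K * K ^ (-(1 / 10) : ℝ) = K ^ (9 / 10 : ℝ) := by
    nth_rewrite 1 [← Real.rpow_one K]
    rw [← Real.rpow_add hK]
    norm_num
  rcases max_choice (1 : ℝ) ((m / K) ^ (1 / 10 : ℝ)) with h | h
  · rw [h, one_mul]
    have e1 : P ^ (-σ) = P ^ (1 / 10 - σ) * P ^ (-(1 / 10) : ℝ) := by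
      rw [← Real.rpow_add hP]
      ring_nf
    have e2 : P ^ (1 / 10 - σ) ≤ m ^ (1 / 10 - σ) :=
      Real.rpow_le_rpow_of_nonpos hm hmP (by linarith)
    have e3 : P ^ (-(1 / 10) : ℝ) ≤ K ^ (-(1 / 10) : ℝ) :=
      Real.rpow_le_rpow_of_nonpos hK hKP (by norm_num)
    rw [e1]
    have e4 : P ^ (1 / 10 - σ) * P ^ (-(1 / 10) : ℝ) ≤ m ^ (1 / 10 - σ) * K ^ (-(1 / 10) : ℝ) :=
      mul_le_mul e2 e3 (Real.rpow_nonneg hP.le _) (Real.rpow_nonneg hm.le _)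
    calc K * (P ^ (1 / 10 - σ) * P ^ (-(1 / 10) : ℝ)) ≤
        K * (m ^ (1 / 10 - σ) * K ^ (-(1 / 10) : ℝ)) := by gcongr
      _ = (K * K ^ (-(1 / 10) : ℝ)) * m ^ (1 / 10 - σ) := by ring
      _ = _ := by rw [hK2]
  · rw [h, Real.div_rpow hm.le hK.le]
    have e2 : P ^ (-σ) ≤ m ^ (-σ) := Real.rpow_le_rpow_of_nonpos hm hmP (by linarith)
    have e3 : m ^ (1 / 10 - σ) = m ^ (1 / 10 : ℝ) * m ^ (-σ) := by
      rw [← Real.rpow_add hm]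
      ring_nf
    have hK3 : 0 < K ^ (1 / 10 : ℝ) := Real.rpow_pos_of_pos hK _
    rw [e3]
    calc m ^ (1 / 10 : ℝ) / K ^ (1 / 10 : ℝ) * (K * P ^ (-σ)) ≤
        m ^ (1 / 10 : ℝ) / K ^ (1 / 10 : ℝ) * (K * m ^ (-σ)) := by gcongr
      _ = m ^ (1 / 10 : ℝ) / K ^ (1 / 10 : ℝ) * ((K ^ (9 / 10 : ℝ) * K ^ (1 / 10 : ℝ)) * m ^ (-σ)) := by
          rw [hK1]
      _ = K ^ (9 / 10 : ℝ) * (m ^ (1 / 10 : ℝ) * m ^ (-σ)) := by
          field_simp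

theorem hB {K N : ℝ} (hK : 0 < K) (hKN : K ≤ N) (hN : 1 ≤ N) :
    K ^ (9 / 10 : ℝ) / (N - 1 / 2) ^ 2 ≤ 4 * N ^ (-1 - (1 / 10 : ℝ)) := by
  have hN0 : 0 < N := by linarith
  have e1 : N ^ (-1 - (1 / 10 : ℝ)) = N ^ (9 / 10 : ℝ) / N ^ 2 := by
    rw [← Real.rpow_natCast, ← Real.rpow_sub hN0]
    norm_num
  have e2 : K ^ (9 / 10 : ℝ) ≤ N ^ (9 / 10 : ℝ) := Real.rpow_le_rpow hK.le hKN (by norm_num)
  have e3 : 0 < N ^ (9 / 10 : ℝ) := Real.rpow_pos_of_pos hN0 _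
  rw [e1, div_le_iff₀ (by nlinarith : 0 < (N - 1 / 2) ^ 2)]
  have e4 : N ^ 2 ≤ 4 * (N - 1 / 2) ^ 2 := by nlinarith
  calc K ^ (9 / 10 : ℝ) ≤ N ^ (9 / 10 : ℝ) := e2
    _ = N ^ (9 / 10 : ℝ) / N ^ 2 * N ^ 2 := by field_simp
    _ ≤ N ^ (9 / 10 : ℝ) / N ^ 2 * (4 * (N - 1 / 2) ^ 2) := by gcongr
    _ = 4 * (N ^ (9 / 10 : ℝ) / N ^ 2) * (N - 1 / 2) ^ 2 := by ring

theorem hterm {σ : ℝ} (hσ : 1 / 5 ≤ σ) (m k : ℕ) (hm : 1 ≤ m) :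
    mx m k * WW σ m (k + 1) ≤ ∑ j ∈ Finset.range m,
      (4 * (m : ℝ) ^ (1 / 10 - σ) * ((j : ℝ) + 1) ^ (σ - 1)) *
        ((k : ℝ) + j + 1) ^ (-1 - (1 / 10 : ℝ)) := by
  have hm0 : (0 : ℝ) < m := by exact_mod_cast hm
  have hK : (0 : ℝ) < (k : ℝ) + 1 := by positivity
  have h1 := hA hσ hm0 hK (show (m : ℝ) ≤ (m : ℝ) + ((k + 1 : ℕ) : ℝ) + 1 by push_cast; linarith)
    (show (k : ℝ) + 1 ≤ (m : ℝ) + ((k + 1 : ℕ) : ℝ) + 1 by push_cast; linarith)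
  have hS : 0 ≤ ∑ j ∈ Finset.range m, ((j : ℝ) + 1) ^ (σ - 1) /
      (((k + 1 : ℕ) : ℝ) + j - 1 / 2) ^ 2 :=
    Finset.sum_nonneg fun j _ => by positivity
  have e0 : mx m k * WW σ m (k + 1) = (mx m k * (((k : ℝ) + 1) *
      ((m : ℝ) + ((k + 1 : ℕ) : ℝ) + 1) ^ (-σ))) * ∑ j ∈ Finset.range m,
        ((j : ℝ) + 1) ^ (σ - 1) / (((k + 1 : ℕ) : ℝ) + j - 1 / 2) ^ 2 := by
    unfold WW
    push_cast
    ring
  rw [e0]
  refine (mul_le_mul_of_nonneg_right h1 hS).trans ?_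
  rw [Finset.mul_sum]
  refine Finset.sum_le_sum fun j _ => ?_
  have hj : (0 : ℝ) ≤ j := Nat.cast_nonneg j
  have h2 := hB (K := (k : ℝ) + 1) (N := (k : ℝ) + j + 1) hK (by linarith) (by linarith)
  have e1 : ((k + 1 : ℕ) : ℝ) + j - 1 / 2 = ((k : ℝ) + j + 1) - 1 / 2 := by
    push_cast
    ring
  rw [e1]
  have h3 : 0 ≤ (m : ℝ) ^ (1 / 10 - σ) * ((j : ℝ) + 1) ^ (σ - 1) := by positivity
  calc ((k : ℝ) + 1) ^ (9 / 10 : ℝ) * (m : ℝ) ^ (1 / 10 - σ) *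
        (((j : ℝ) + 1) ^ (σ - 1) / (((k : ℝ) + j + 1) - 1 / 2) ^ 2) =
        ((m : ℝ) ^ (1 / 10 - σ) * ((j : ℝ) + 1) ^ (σ - 1)) *
          (((k : ℝ) + 1) ^ (9 / 10 : ℝ) / (((k : ℝ) + j + 1) - 1 / 2) ^ 2) := by ring
    _ ≤ ((m : ℝ) ^ (1 / 10 - σ) * ((j : ℝ) + 1) ^ (σ - 1)) *
          (4 * ((k : ℝ) + j + 1) ^ (-1 - (1 / 10 : ℝ))) := mul_le_mul_of_nonneg_left h2 h3
    _ = _ := by ring

end IV

theorem iv : S_IV := by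
  intro hTL σ hσ1 hσ2
  obtain ⟨h1, h2, _, _⟩ := hTL
  have hc : 0 < σ - 1 / 10 := by linarith
  refine ⟨44 / (σ - 1 / 10), by positivity, ?_⟩
  intro m hm
  have hm0 : (0 : ℝ) < m := by exact_mod_cast hm
  set a : ℕ → ℝ := fun j => 4 * (m : ℝ) ^ (1 / 10 - σ) * ((j : ℝ) + 1) ^ (σ - 1) with ha
  have ha0 : ∀ j, 0 ≤ a j := fun j => by
    simp only [ha]
    positivity
  have hpt : ∀ k : ℕ, ENNReal.ofReal (mx m k * WW σ m (k + 1)) ≤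
      ∑ j ∈ Finset.range m, ENNReal.ofReal (a j) *
        ENNReal.ofReal (((k : ℝ) + j + 1) ^ (-1 - (1 / 10 : ℝ))) := by
    intro k
    refine (ENNReal.ofReal_le_ofReal (IV.hterm hσ1 m k hm)).trans (le_of_eq ?_)
    rw [ENNReal.ofReal_sum_of_nonneg (fun j _ => by positivity)]
    refine Finset.sum_congr rfl fun j _ => ?_
    rw [← ENNReal.ofReal_mul (ha0 j)]
  calc ∑' k : ℕ, ENNReal.ofReal (mx m k * WW σ m (k + 1)) ≤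
      ∑' k : ℕ, ∑ j ∈ Finset.range m, ENNReal.ofReal (a j) *
        ENNReal.ofReal (((k : ℝ) + j + 1) ^ (-1 - (1 / 10 : ℝ))) := ENNReal.tsum_le_tsum hpt
    _ = ∑ j ∈ Finset.range m, ∑' k : ℕ, ENNReal.ofReal (a j) *
        ENNReal.ofReal (((k : ℝ) + j + 1) ^ (-1 - (1 / 10 : ℝ))) :=
      Summable.tsum_finsetSum fun _ _ => ENNReal.summable
    _ ≤ ∑ j ∈ Finset.range m, ENNReal.ofReal (a j) *
        ENNReal.ofReal ((1 + 1 / (1 / 10 : ℝ)) * ((j : ℝ) + 1) ^ (-(1 / 10 : ℝ))) := by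
      refine Finset.sum_le_sum fun j _ => ?_
      rw [ENNReal.tsum_mul_left]
      gcongr
      exact h1 (1 / 10) j (by norm_num)
    _ = ENNReal.ofReal (∑ j ∈ Finset.range m,
        a j * ((1 + 1 / (1 / 10 : ℝ)) * ((j : ℝ) + 1) ^ (-(1 / 10 : ℝ)))) := by
      rw [ENNReal.ofReal_sum_of_nonneg (fun j _ => mul_nonneg (ha0 j) (by positivity))]
      refine Finset.sum_congr rfl fun j _ => ?_
      rw [← ENNReal.ofReal_mul (ha0 j)]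
    _ ≤ ENNReal.ofReal (44 / (σ - 1 / 10)) := by
      apply ENNReal.ofReal_le_ofReal
      have e1 : ∀ j ∈ Finset.range m, a j * ((1 + 1 / (1 / 10 : ℝ)) * ((j : ℝ) + 1) ^ (-(1 / 10 : ℝ))) =
          44 * (m : ℝ) ^ (1 / 10 - σ) * ((j : ℝ) + 1) ^ ((σ - 1 / 10) - 1) := by
        intro j _
        have hj : (0 : ℝ) < (j : ℝ) + 1 := by positivity
        have e2 : ((j : ℝ) + 1) ^ ((σ - 1 / 10) - 1) =
            ((j : ℝ) + 1) ^ (σ - 1) * ((j : ℝ) + 1) ^ (-(1 / 10 : ℝ)) := by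
          rw [← Real.rpow_add hj]
          ring_nf
        rw [e2]
        simp only [ha]
        ring
      rw [Finset.sum_congr rfl e1, ← Finset.mul_sum]
      have e3 := h2 (σ - 1 / 10) m hc (by linarith)
      have e4 : (m : ℝ) ^ (1 / 10 - σ) * (m : ℝ) ^ (σ - 1 / 10) = 1 := by
        rw [← Real.rpow_add hm0]
        have : (1 / 10 - σ) + (σ - 1 / 10) = 0 := by ring
        rw [this, Real.rpow_zero]
      calc 44 * (m : ℝ) ^ (1 / 10 - σ) * ∑ j ∈ Finset.range m, ((j : ℝ) + 1) ^ ((σ - 1 / 10) - 1) ≤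
          44 * (m : ℝ) ^ (1 / 10 - σ) * ((m : ℝ) ^ (σ - 1 / 10) / (σ - 1 / 10)) := by gcongr
        _ = 44 * ((m : ℝ) ^ (1 / 10 - σ) * (m : ℝ) ^ (σ - 1 / 10)) / (σ - 1 / 10) := by ring
        _ = 44 / (σ - 1 / 10) := by rw [e4, mul_one]

end Pool.Agent.H64.SR
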