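import Pool.Agent.H64.SR.Stm

set_option autoImplicit false
set_option linter.unusedVariables false

/-! # SR-PW: the pointwise bound of the rows by the weighted row -/

namespace Pool.Agent.H64.SR

open Pool.Agent.H76.CZ (WW)

namespace PW

lemma sq_step (N : ℕ) :
    1 / Real.sqrt ((N : ℝ) + 1) ≤ 2 * (Real.sqrt ((N : ℝ) + 1) - Real.sqrt N) := by
  have h0 : (0 : ℝ) ≤ N := Nat.cast_nonneg _
  have ha2 : Real.sqrt ((N : ℝ) + 1) * Real.sqrt ((N : ℝ) + 1) = N + 1 :=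
    Real.mul_self_sqrt (by linarith)
  have hb2 : Real.sqrt (N : ℝ) * Real.sqrt (N : ℝ) = N := Real.mul_self_sqrt h0
  have ha0 : 0 < Real.sqrt ((N : ℝ) + 1) := Real.sqrt_pos.2 (by linarith)
  rw [div_le_iff₀ ha0]
  nlinarith [sq_nonneg (Real.sqrt ((N : ℝ) + 1) - Real.sqrt (N : ℝ))]

/-- the correction -/
noncomputable def ee (X : ℝ) (n : ℕ) : ℝ := if (n : ℝ) < X then Real.sqrt X / Real.sqrt n else 0

lemma ee_nonneg (X : ℝ) (n : ℕ) : 0 ≤ ee X n := by
  unfold ee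
  split_ifs
  · positivity
  · exact le_rfl

lemma sum_ee (X : ℝ) (hX : 0 < X) (N : ℕ) :
    ∑ n ∈ Finset.Ico 1 (N + 1), ee X n ≤ 2 * Real.sqrt X * Real.sqrt (min (N : ℝ) X) := by
  induction N with
  | zero =>
    simp only [zero_add, Finset.Ico_self, Finset.sum_empty]
    positivity
  | succ N ih =>
    rw [Finset.sum_Ico_succ_top (by omega)]
    have hs : 0 < Real.sqrt X := Real.sqrt_pos.2 hX
    have hstep : ee X (N + 1) ≤ 2 * Real.sqrt X *
        (Real.sqrt (min ((N + 1 : ℕ) : ℝ) X) - Real.sqrt (min (N : ℝ) X)) := by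
      unfold ee
      push_cast
      split_ifs with h
      · rw [min_eq_left h.le, min_eq_left (by linarith)]
        have := sq_step N
        calc Real.sqrt X / Real.sqrt ((N : ℝ) + 1)
            = Real.sqrt X * (1 / Real.sqrt ((N : ℝ) + 1)) := by ring
          _ ≤ Real.sqrt X * (2 * (Real.sqrt ((N : ℝ) + 1) - Real.sqrt N)) :=
              mul_le_mul_of_nonneg_left this hs.le
          _ = _ := by ring
      · have h1 : Real.sqrt (min (N : ℝ) X) ≤ Real.sqrt (min ((N : ℝ) + 1) X) :=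
          Real.sqrt_le_sqrt (min_le_min_right X (by linarith))
        have : 0 ≤ Real.sqrt (min ((N : ℝ) + 1) X) - Real.sqrt (min (N : ℝ) X) := by linarith
        positivity
    linarith

lemma sum_ee' (X : ℝ) (hX : 0 < X) (m : ℕ) (hm : 1 ≤ m) :
    ∑ n ∈ Finset.Ico 1 m, ee X n ≤ 2 * X := by
  obtain ⟨N, rfl⟩ : ∃ N, m = N + 1 := ⟨m - 1, by omega⟩
  refine (sum_ee X hX N).trans ?_
  have h1 : Real.sqrt (min (N : ℝ) X) ≤ Real.sqrt X := Real.sqrt_le_sqrt (min_le_right _ _)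
  have h2 : Real.sqrt X * Real.sqrt X = X := Real.mul_self_sqrt hX.le
  have hs : 0 < Real.sqrt X := Real.sqrt_pos.2 hX
  nlinarith

/-- the truncation -/
lemma inv_tr (ε : ℝ) (hε : 0 < ε) (m n : ℕ) (hm : 1 ≤ m) (hn : 1 ≤ n) :
    0 < tr ε m n ∧ 1 / tr ε m n ≤ 1 + ee (ε * m) n := by
  have hmR : (1 : ℝ) ≤ m := by exact_mod_cast hm
  have hnR : (1 : ℝ) ≤ n := by exact_mod_cast hn
  have hX : 0 < ε * m := by positivity
  have hq : 0 < (n : ℝ) / (ε * m) := by positivity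
  have h1 : tr ε m n = min 1 (Real.sqrt ((n : ℝ) / (ε * m))) := by
    unfold tr
    rw [Real.sqrt_eq_rpow]
  have h2 : 0 < Real.sqrt ((n : ℝ) / (ε * m)) := Real.sqrt_pos.2 hq
  have h3 : 0 < tr ε m n := by rw [h1]; exact lt_min one_pos h2
  refine ⟨h3, ?_⟩
  unfold ee
  split_ifs with h
  · have h4 : Real.sqrt ((n : ℝ) / (ε * m)) ≤ 1 := by
      rw [Real.sqrt_le_one]
      rw [div_le_one hX]
      exact h.le
    rw [h1, min_eq_right h4, Real.sqrt_div (by linarith), one_div_div]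
    linarith
  · have h4 : 1 ≤ Real.sqrt ((n : ℝ) / (ε * m)) := by
      rw [Real.one_le_sqrt, one_le_div hX]
      linarith
    rw [h1, min_eq_left h4]
    norm_num

/-- the square of an entry -/
lemma bb_sq (hSQ : S_SQ) (m k n : ℕ) (hn : 1 ≤ n) (hnm : n < m) :
    bb m k n ^ 2 ≤ n * ((m : ℝ) + k + 1) /
      (Real.pi ^ 2 * ((m : ℝ) + k + 1 - 1 / 2) ^ 2 * ((m : ℝ) + k + 1 - n - 1 / 2) ^ 2) := by
  obtain ⟨h1, h2, -, -⟩ := hSQ
  have hk : (0 : ℝ) ≤ k := Nat.cast_nonneg _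
  have hnR : (1 : ℝ) ≤ n := by exact_mod_cast hn
  have hnm' : (n : ℝ) + 1 ≤ m := by exact_mod_cast hnm
  obtain ⟨M, hM⟩ : ∃ M : ℝ, M = (m : ℝ) + k + 1 := ⟨_, rfl⟩
  have hMc : ((m + k + 1 : ℕ) : ℝ) = M := by rw [hM]; push_cast; ring
  have hb := h2 (m + k + 1) (by omega)
  have hu := (h1 (m + k + 1) (by omega)).2.2.1
  have hv := (h1 n hn).2.2.1
  rw [hMc] at hb hu
  have hMn : 0 < M - n - 1 / 2 := by rw [hM]; linarith
  have hM2 : 2 ≤ M := by rw [hM]; linarith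
  unfold bb
  rw [if_neg hnm.ne, add_zero, hb, ← hM]
  have hπ : 0 < Real.pi := Real.pi_pos
  have hu0 : 0 ≤ us (m + k + 1) ^ 2 := sq_nonneg _
  have hv0 : 0 ≤ us n ^ 2 := sq_nonneg _
  have e1 : (-(us (m + k + 1) / (2 * M * (2 * M - 1))) * (M * us n / (M - n - 1 / 2))) ^ 2 =
      (us (m + k + 1) ^ 2 * us n ^ 2) / (4 * (2 * M - 1) ^ 2 * (M - n - 1 / 2) ^ 2) := by
    have : 2 * M - 1 ≠ 0 := by linarith
    have hM0 : M ≠ 0 := by linarith
    field_simp
    ring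
  have e2 : (n : ℝ) * M / (Real.pi ^ 2 * (M - 1 / 2) ^ 2 * (M - n - 1 / 2) ^ 2) =
      (4 / Real.pi * M * (4 / Real.pi * n)) / (4 * (2 * M - 1) ^ 2 * (M - n - 1 / 2) ^ 2) := by
    have h5 : M - 1 / 2 ≠ 0 := by linarith
    have h6 : 2 * M - 1 = 2 * (M - 1 / 2) := by ring
    rw [h6]
    field_simp
    ring
  rw [e1, e2]
  apply div_le_div_of_nonneg_right _ (by positivity)
  exact mul_le_mul hu hv hv0 (by positivity)

end PW

open PW in
theorem pw : S_PW := by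
  intro hSQ σ ε hσ0 hσ1 hε0 hε2 m k hm
  have hmR : (1 : ℝ) ≤ m := by exact_mod_cast hm
  have hm0 : (0 : ℝ) < m := by linarith
  have hk : (0 : ℝ) ≤ k := Nat.cast_nonneg _
  have hπ : 0 < Real.pi := Real.pi_pos
  obtain ⟨M, hM⟩ : ∃ M : ℝ, M = (m : ℝ) + k + 1 := ⟨_, rfl⟩
  have hM2 : 2 ≤ M := by rw [hM]; linarith
  obtain ⟨X, hX⟩ : ∃ X : ℝ, X = ε * m := ⟨_, rfl⟩
  have hX0 : 0 < X := by rw [hX]; positivity
  -- the function of `j`
  obtain ⟨G, hG⟩ : ∃ G : ℕ → ℝ, ∀ j, G j =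
      ((j : ℝ) + 1) ^ (σ - 1) / ((k : ℝ) + 1 + j - 1 / 2) ^ 2 := ⟨_, fun _ => rfl⟩
  have hG0 : ∀ j, 0 ≤ G j := fun j => by rw [hG]; positivity
  obtain ⟨S, hS⟩ : ∃ S : ℝ, S = ∑ j ∈ Finset.range m, G j := ⟨_, rfl⟩
  have hS0 : 0 ≤ S := by rw [hS]; exact Finset.sum_nonneg fun j _ => hG0 j
  obtain ⟨C, hC⟩ : ∃ C : ℝ, C = 8 * (m : ℝ) ^ (σ - 1) / M ^ 2 := ⟨_, rfl⟩
  have hC0 : 0 ≤ C := by rw [hC]; positivity
  -- lower bound of `S`
  have hSlow : (m : ℝ) ^ σ / M ^ 2 ≤ S := by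
    have h1 : ∀ j ∈ Finset.range m, (m : ℝ) ^ (σ - 1) / M ^ 2 ≤ G j := by
      intro j hj
      rw [Finset.mem_range] at hj
      have hj' : (j : ℝ) + 1 ≤ m := by exact_mod_cast hj
      have hj0 : (0 : ℝ) ≤ j := Nat.cast_nonneg _
      rw [hG]
      apply div_le_div₀ (by positivity)
      · exact Real.rpow_le_rpow_of_nonpos (by linarith) hj' (by linarith)
      · have : 0 < (k : ℝ) + 1 + j - 1 / 2 := by linarith
        positivity
      · apply pow_le_pow_left₀ (by linarith)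
        rw [hM]; linarith
    have h2 := Finset.sum_le_sum h1
    rw [Finset.sum_const, Finset.card_range, nsmul_eq_mul, ← hS] at h2
    refine le_trans (le_of_eq ?_) h2
    have : (m : ℝ) ^ σ = m * (m : ℝ) ^ (σ - 1) := by
      rw [Real.rpow_sub_one hm0.ne']
      field_simp
    rw [this]; ring
  -- the terms
  have hterm : ∀ n ∈ Finset.Ico 1 m, bb m k n ^ 2 / ((n : ℝ) * wt σ (m - n) * tr ε m n) ≤
      M / (Real.pi ^ 2 * (M - 1 / 2) ^ 2) * (G (m - n) + C * ee X n) := by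
    intro n hn
    rw [Finset.mem_Ico] at hn
    have hnR : (1 : ℝ) ≤ n := by exact_mod_cast hn.1
    have hnm' : (n : ℝ) + 1 ≤ m := by exact_mod_cast hn.2
    obtain ⟨ht0, ht⟩ := inv_tr ε hε0 m n hm hn.1
    rw [← hX] at ht
    have hc : ((m - n : ℕ) : ℝ) = m - n := by
      rw [Nat.cast_sub hn.2.le]
    have hMn : 0 < M - n - 1 / 2 := by rw [hM]; linarith
    have hGn : G (m - n) = ((m : ℝ) - n + 1) ^ (σ - 1) / (M - n - 1 / 2) ^ 2 := by
      rw [hG, hc, hM]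
      congr 2
      ring
    have hwt : wt σ (m - n) = (((m : ℝ) - n + 1) ^ (σ - 1))⁻¹ := by
      unfold wt
      rw [hc, ← Real.rpow_neg (by linarith)]
      congr 1
      ring
    have hpos : 0 < ((m : ℝ) - n + 1) ^ (σ - 1) := Real.rpow_pos_of_pos (by linarith) _
    have hb := bb_sq hSQ m k n hn.1 hn.2
    rw [← hM] at hb
    have hee := ee_nonneg X n
    have e1 : bb m k n ^ 2 / ((n : ℝ) * wt σ (m - n) * tr ε m n) =
        bb m k n ^ 2 / n * (((m : ℝ) - n + 1) ^ (σ - 1)) * (1 / tr ε m n) := by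
      rw [hwt]
      field_simp
    have e2 : bb m k n ^ 2 / n * (((m : ℝ) - n + 1) ^ (σ - 1)) ≤
        M / (Real.pi ^ 2 * (M - 1 / 2) ^ 2) * G (m - n) := by
      have h3 : bb m k n ^ 2 / n ≤ M / (Real.pi ^ 2 * (M - 1 / 2) ^ 2 * (M - n - 1 / 2) ^ 2) := by
        rw [div_le_iff₀ (by linarith)]
        refine hb.trans (le_of_eq ?_)
        ring
      calc bb m k n ^ 2 / n * (((m : ℝ) - n + 1) ^ (σ - 1))
          ≤ M / (Real.pi ^ 2 * (M - 1 / 2) ^ 2 * (M - n - 1 / 2) ^ 2) *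
            (((m : ℝ) - n + 1) ^ (σ - 1)) := mul_le_mul_of_nonneg_right h3 hpos.le
        _ = M / (Real.pi ^ 2 * (M - 1 / 2) ^ 2) * G (m - n) := by
            rw [hGn]
            have : M - 1 / 2 ≠ 0 := by linarith
            field_simp
    have hK : 0 ≤ M / (Real.pi ^ 2 * (M - 1 / 2) ^ 2) := by
      have : 0 < M - 1 / 2 := by linarith
      positivity
    have e3 : G (m - n) * ee X n ≤ C * ee X n := by
      by_cases h : (n : ℝ) < X
      · apply mul_le_mul_of_nonneg_right _ hee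
        have hn2 : (n : ℝ) ≤ m / 2 := by
          rw [hX] at h
          nlinarith
        rw [hGn, hC]
        have h5 : ((m : ℝ) - n + 1) ^ (σ - 1) ≤ 2 * (m : ℝ) ^ (σ - 1) := by
          calc ((m : ℝ) - n + 1) ^ (σ - 1) ≤ ((m : ℝ) / 2) ^ (σ - 1) :=
                Real.rpow_le_rpow_of_nonpos (by linarith) (by linarith) (by linarith)
            _ = (m : ℝ) ^ (σ - 1) * 2 ^ (1 - σ) := by
                rw [Real.div_rpow hm0.le (by norm_num), div_eq_mul_inv,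
                  ← Real.rpow_neg (by norm_num)]
                congr 2
                ring
            _ ≤ (m : ℝ) ^ (σ - 1) * 2 := by
                apply mul_le_mul_of_nonneg_left _ (by positivity)
                calc (2 : ℝ) ^ (1 - σ) ≤ 2 ^ (1 : ℝ) :=
                      Real.rpow_le_rpow_of_exponent_le (by norm_num) (by linarith)
                  _ = 2 := Real.rpow_one 2
            _ = 2 * (m : ℝ) ^ (σ - 1) := by ring
        have h6 : M / 2 ≤ M - n - 1 / 2 := by rw [hM]; linarith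
        have h7 : (M / 2) ^ 2 ≤ (M - n - 1 / 2) ^ 2 := pow_le_pow_left₀ (by linarith) h6 2
        calc ((m : ℝ) - n + 1) ^ (σ - 1) / (M - n - 1 / 2) ^ 2
            ≤ (2 * (m : ℝ) ^ (σ - 1)) / (M / 2) ^ 2 :=
              div_le_div₀ (by positivity) h5 (by positivity) h7
          _ = 8 * (m : ℝ) ^ (σ - 1) / M ^ 2 := by
              field_simp
              ring
      · have : ee X n = 0 := by unfold ee; rw [if_neg h]
        rw [this, mul_zero, mul_zero]
    rw [e1]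
    calc bb m k n ^ 2 / n * (((m : ℝ) - n + 1) ^ (σ - 1)) * (1 / tr ε m n)
        ≤ M / (Real.pi ^ 2 * (M - 1 / 2) ^ 2) * G (m - n) * (1 + ee X n) := by
          apply mul_le_mul e2 ht (by positivity)
          exact mul_nonneg hK (hG0 _)
      _ = M / (Real.pi ^ 2 * (M - 1 / 2) ^ 2) * (G (m - n) + G (m - n) * ee X n) := by ring
      _ ≤ M / (Real.pi ^ 2 * (M - 1 / 2) ^ 2) * (G (m - n) + C * ee X n) := by
          apply mul_le_mul_of_nonneg_left _ hK
          linarith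
  have hK : 0 ≤ M / (Real.pi ^ 2 * (M - 1 / 2) ^ 2) := by
    have : 0 < M - 1 / 2 := by linarith
    positivity
  -- the sum
  have hsum : ∑ n ∈ Finset.Ico 1 m, bb m k n ^ 2 / ((n : ℝ) * wt σ (m - n) * tr ε m n) ≤
      M / (Real.pi ^ 2 * (M - 1 / 2) ^ 2) * ((1 + 32 * ε) * S) := by
    refine (Finset.sum_le_sum hterm).trans ?_
    rw [← Finset.mul_sum, Finset.sum_add_distrib, ← Finset.mul_sum]
    apply mul_le_mul_of_nonneg_left _ hK
    have h1 : ∑ n ∈ Finset.Ico 1 m, G (m - n) ≤ S := by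
      rw [Finset.sum_Ico_reflect G 1 (by omega)]
      rw [hS]
      apply Finset.sum_le_sum_of_subset_of_nonneg
      · intro j hj
        rw [Finset.mem_Ico] at hj
        rw [Finset.mem_range]
        omega
      · intro j _ _
        exact hG0 j
    have h2 := sum_ee' X hX0 m hm
    have h3 : C * ∑ n ∈ Finset.Ico 1 m, ee X n ≤ 16 * ε * ((m : ℝ) ^ σ / M ^ 2) := by
      calc C * ∑ n ∈ Finset.Ico 1 m, ee X n ≤ C * (2 * X) := mul_le_mul_of_nonneg_left h2 hC0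
        _ = 16 * ε * ((m : ℝ) ^ σ / M ^ 2) := by
            have : (m : ℝ) ^ σ = m * (m : ℝ) ^ (σ - 1) := by
              rw [Real.rpow_sub_one hm0.ne']
              field_simp
            rw [this, hC, hX]
            ring
    have h4 : 16 * ε * ((m : ℝ) ^ σ / M ^ 2) ≤ 16 * ε * S :=
      mul_le_mul_of_nonneg_left hSlow (by positivity)
    nlinarith [mul_nonneg hε0.le hS0]
  -- the factor
  have hfac : (M + 1) * (M / (M - 1 / 2) ^ 2) ≤ 1 + 10 / (m : ℝ) := by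
    have h1 : (M + 1) * (M / (M - 1 / 2) ^ 2) ≤ 1 + 10 / M := by
      have h2 : 0 < M - 1 / 2 := by linarith
      have e : (M + 1) * (M / (M - 1 / 2) ^ 2) = (M + 1) * M / (M - 1 / 2) ^ 2 := by ring
      rw [e, div_le_iff₀ (by positivity)]
      have e2 : (1 + 10 / M) * (M - 1 / 2) ^ 2 = (M + 10) * (M - 1 / 2) ^ 2 / M := by
        field_simp
      rw [e2, le_div_iff₀ (by linarith)]
      nlinarith [mul_nonneg (by linarith : (0 : ℝ) ≤ M - 2) (by linarith : (0 : ℝ) ≤ M)]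
    have h3 : 10 / M ≤ 10 / (m : ℝ) := by
      apply div_le_div_of_nonneg_left (by norm_num) hm0
      rw [hM]; linarith
    linarith
  have hwtM : wt σ (m + k + 1) = (M + 1) * (M + 1) ^ (-σ) := by
    unfold wt
    have e : ((m + k + 1 : ℕ) : ℝ) = M := by rw [hM]; push_cast; ring
    rw [e, sub_eq_add_neg, Real.rpow_add (by linarith), Real.rpow_one]
  have hWW : WW σ m (k + 1) = ((k : ℝ) + 1) * (M + 1) ^ (-σ) * S := by
    unfold WW
    have e : ((m : ℝ) + ((k + 1 : ℕ) : ℝ) + 1) = M + 1 := by rw [hM]; push_cast; ring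
    rw [e, hS]
    push_cast
    congr 1
    apply Finset.sum_congr rfl
    intro j _
    rw [hG]
  rw [hWW, hwtM]
  have hP : 0 ≤ (M + 1) ^ (-σ) := Real.rpow_nonneg (by linarith) _
  calc ((k : ℝ) + 1) * ((M + 1) * (M + 1) ^ (-σ)) *
        ∑ n ∈ Finset.Ico 1 m, bb m k n ^ 2 / ((n : ℝ) * wt σ (m - n) * tr ε m n)
      ≤ ((k : ℝ) + 1) * ((M + 1) * (M + 1) ^ (-σ)) *
        (M / (Real.pi ^ 2 * (M - 1 / 2) ^ 2) * ((1 + 32 * ε) * S)) := by
        apply mul_le_mul_of_nonneg_left hsum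
        positivity
    _ = ((M + 1) * (M / (M - 1 / 2) ^ 2)) *
        ((((k : ℝ) + 1) * (M + 1) ^ (-σ)) * ((1 + 32 * ε) / Real.pi ^ 2 * S)) := by
        have : M - 1 / 2 ≠ 0 := by linarith
        field_simp
    _ ≤ (1 + 10 / (m : ℝ)) *
        ((((k : ℝ) + 1) * (M + 1) ^ (-σ)) * ((1 + 32 * ε) / Real.pi ^ 2 * S)) := by
        apply mul_le_mul_of_nonneg_right hfac
        positivity
    _ = (1 + 10 / (m : ℝ)) * (1 + 32 * ε) / Real.pi ^ 2 *
        (((k : ℝ) + 1) * (M + 1) ^ (-σ) * S) := by ring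

end Pool.Agent.H64.SR
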