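import Pool.Agent.H64.SR.Stm
import Pool.Agent.H7.SZ.Stm

set_option autoImplicit false

/-! # SR: the assembly of `S_REDF` -/

namespace Pool.Agent.H64.SR

open Set Filter Topology MeasureTheory Finset
open scoped ENNReal
open Pool.Agent.H64.CX (bt TN TP)
open Pool.Agent.H76.CZ (WW S_ID2 S_PHI S_INT S_LIM3 II)
open Pool.Agent.H7.SZ (S_REDF ah sg w)

theorem ah_ne (j : ℤ) : (-(1 / 2) : ℂ) ≠ (j : ℂ) := by
  intro h
  have h1 : (-1 : ℂ) = ((2 * j : ℤ) : ℂ) := by
    push_cast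
    rw [← h]
    ring
  have h2 : ((-1 : ℤ) : ℂ) = ((2 * j : ℤ) : ℂ) := by simpa using h1
  have h3 : (-1 : ℤ) = 2 * j := by exact_mod_cast h2
  omega

theorem row (sq : S_SQ) (id2 : S_ID2) (ν : ℕ → ℕ → ℂ) (hν : ∀ a b, ν a b = ν b a) (m k : ℕ)
    (hm : 1 ≤ m) :
    TN (-(1 / 2)) ν (k + 1) m = ∑ n ∈ Finset.Icc 1 m, (bb m k n : ℂ) * TP (-(1 / 2)) ν n m := by
  obtain ⟨-, -, h3, h4⟩ := sq
  rw [id2 (-(1 / 2)) ν hν ah_ne m (k + 1) hm (by omega)]
  have e1 : ∀ n ∈ Finset.Icc 1 m, (bb m k n : ℂ) * TP (-(1 / 2)) ν n m =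
      bt (-(1 / 2)) (m + (k + 1)) * ((if n = m then TP (-(1 / 2)) ν n m else 0) +
        ((m : ℂ) + (k + 1 : ℕ)) * bt (1 - (-(1 / 2))) (n - 1) / ((m : ℂ) + (k + 1 : ℕ) - n + (-(1 / 2))) *
          TP (-(1 / 2)) ν n m) := by
    intro n _
    rw [h3, h4]
    unfold bb
    have e2 : m + (k + 1) = m + k + 1 := by ring
    rw [e2]
    push_cast
    by_cases hn : n = m
    · simp only [hn, if_true]
      push_cast
      ring
    · simp only [hn, if_false]
      push_cast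
      ring
  rw [Finset.sum_congr rfl e1, ← Finset.mul_sum, Finset.sum_add_distrib, Finset.sum_ite_eq' ]
  simp only [Finset.mem_Icc, le_refl, hm, and_self, if_true]

theorem redf (sq : S_SQ) (bk : S_BK) (tl : S_TL) (v1 : S_V1) (v2 : S_V2) (v3 : S_V3) (pw : S_PW)
    (iv : S_IV) (id2 : S_ID2) (phi : S_PHI) (int : S_INT) (lim3 : S_LIM3) : S_REDF := by
  have hs0 : (1 / 5 : ℝ) ≤ sg := by unfold sg; norm_num
  have hs0' : (0 : ℝ) < sg := by linarith
  have hs1 : sg < 1 := by unfold sg; norm_num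
  have hpi := Real.pi_gt_d4
  have hpi2 : (9.869 : ℝ) ≤ Real.pi ^ 2 := by nlinarith
  have hpi0 : (0 : ℝ) < Real.pi ^ 2 := by positivity
  obtain ⟨C1, hC1, H1⟩ := v1 sq bk tl sg hs0 hs1
  obtain ⟨C2, hC2, H2⟩ := v2 sq bk tl sg hs0 hs1
  obtain ⟨C3, hC3, H3⟩ := iv tl sg hs0 hs1
  -- the limit
  have hlim := lim3 phi sg hs0' hs1
  have hII : II sg < ENNReal.ofReal (9.723 : ℝ) := by
    refine lt_of_le_of_lt (int phi sg hs0' hs1) ?_
    rw [ENNReal.ofReal_lt_ofReal_iff (by norm_num)]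
    unfold sg
    norm_num
  have hev := hlim.eventually (gt_mem_nhds hII)
  obtain ⟨m₁, hm₁⟩ := hev.exists_forall_of_atTop
  refine ⟨1 / 10000, 99 / 100, C1 + C2 + 2 * C3 + 1, max m₁ 100000, bb, by norm_num, by norm_num,
    by norm_num, by norm_num, by positivity, ?_⟩
  intro m hm
  have hm1 : m₁ ≤ m := le_trans (le_max_left _ _) hm
  have hm2 : 100000 ≤ m := le_trans (le_max_right _ _) hm
  have hm3 : 1 ≤ m := by omega
  have hmR : (100000 : ℝ) ≤ (m : ℝ) := by exact_mod_cast hm2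
  have hWW := (hm₁ m hm1).le
  have hPW := fun k => pw sq sg (1 / 10000) hs0' hs1 (by norm_num) (by norm_num) m k hm3
  have h10 : 10 / (m : ℝ) ≤ 1 / 10000 := by
    rw [div_le_div_iff₀ (by linarith) (by norm_num)]
    linarith
  have h10' : 0 ≤ 10 / (m : ℝ) := by positivity
  set K : ℝ := (1 + 10 / (m : ℝ)) * (1 + 32 * (1 / 10000)) / Real.pi ^ 2 with hK
  have hK0 : 0 ≤ K := by positivity
  have hK1 : K * 9.723 ≤ 99 / 100 := by
    rw [hK, div_mul_eq_mul_div, div_le_iff₀ hpi0]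
    nlinarith
  have hK2 : K ≤ 2 := by nlinarith
  refine ⟨fun ν hν k => row sq id2 ν hν m k hm3, ?_, ?_, ?_, ?_, ?_, ?_⟩
  · calc ∑' k : ℕ, ENNReal.ofReal (((k : ℝ) + 1) * w (m + k + 1) *
          ∑ n ∈ Finset.Ico 1 m, bb m k n ^ 2 / ((n : ℝ) * w (m - n) *
            Pool.Agent.H7.SZ.tr (1 / 10000) m n))
        ≤ ∑' k : ℕ, ENNReal.ofReal K * ENNReal.ofReal (WW sg m (k + 1)) := by
          refine ENNReal.tsum_le_tsum fun k => ?_
          rw [← ENNReal.ofReal_mul hK0]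
          exact ENNReal.ofReal_le_ofReal (hPW k)
      _ = ENNReal.ofReal K * ∑' k : ℕ, ENNReal.ofReal (WW sg m (k + 1)) := ENNReal.tsum_mul_left
      _ ≤ ENNReal.ofReal K * ENNReal.ofReal 9.723 := by gcongr
      _ = ENNReal.ofReal (K * 9.723) := (ENNReal.ofReal_mul hK0).symm
      _ ≤ ENNReal.ofReal (99 / 100) := ENNReal.ofReal_le_ofReal hK1
  · calc ∑' k : ℕ, ENNReal.ofReal (((k : ℝ) + 1) * w (m + k + 1) * Pool.Agent.H7.SZ.mx m k *
          ∑ n ∈ Finset.Ico 1 m, bb m k n ^ 2 / ((n : ℝ) * w (m - n) *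
            Pool.Agent.H7.SZ.tr (1 / 10000) m n))
        ≤ ∑' k : ℕ, ENNReal.ofReal K * ENNReal.ofReal (mx m k * WW sg m (k + 1)) := by
          refine ENNReal.tsum_le_tsum fun k => ?_
          rw [← ENNReal.ofReal_mul hK0]
          refine ENNReal.ofReal_le_ofReal ?_
          have h0 : 0 ≤ mx m k := le_trans zero_le_one (le_max_left _ _)
          have h1 := mul_le_mul_of_nonneg_left (hPW k) h0
          calc _ = mx m k * (((k : ℝ) + 1) * wt sg (m + k + 1) *
                ∑ n ∈ Finset.Ico 1 m, bb m k n ^ 2 / ((n : ℝ) * wt sg (m - n) *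
                  tr (1 / 10000) m n)) := by
                unfold w wt Pool.Agent.H7.SZ.mx mx Pool.Agent.H7.SZ.tr tr
                ring
            _ ≤ _ := h1
            _ = _ := by ring
      _ = ENNReal.ofReal K * ∑' k : ℕ, ENNReal.ofReal (mx m k * WW sg m (k + 1)) :=
          ENNReal.tsum_mul_left
      _ ≤ ENNReal.ofReal K * ENNReal.ofReal C3 := by
          gcongr
          exact H3 m hm3
      _ = ENNReal.ofReal (K * C3) := (ENNReal.ofReal_mul hK0).symm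
      _ ≤ ENNReal.ofReal (C1 + C2 + 2 * C3 + 1) := by
          apply ENNReal.ofReal_le_ofReal
          nlinarith
  · refine (H1 m hm3).trans (ENNReal.ofReal_le_ofReal ?_)
    have hw : 0 ≤ wt sg m := by unfold wt; positivity
    have : wt sg m = w m := rfl
    rw [← this]
    apply mul_le_mul_of_nonneg_left _ hw
    linarith
  · refine (H2 m hm3).trans (ENNReal.ofReal_le_ofReal ?_)
    have hw : 0 ≤ wt sg m := by unfold wt; positivity
    have : wt sg m = w m := rfl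
    rw [← this]
    apply mul_le_mul_of_nonneg_right _ hw
    linarith
  · exact (v3 sq bk tl m hm3).1
  · refine le_trans ?_ (v3 sq bk tl m hm3).2
    linarith

end Pool.Agent.H64.SR
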