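import Pool.Agent.H64.SR.Stm
import Pool.Agent.H76.CZ.U2

set_option autoImplicit false

/-! # SR-SQ (helper48) -/

namespace Pool.Agent.H64.SR

open Set Filter Topology MeasureTheory
open scoped ENNReal
open Pool.Agent.H64.CX (bt)
open Pool.Agent.H76.CZ.U2aux

namespace SQaux

theorem us_v (n : ℕ) : us (n + 1) = v n := rfl

theorem lim34 : Tendsto (fun n : ℕ => v n ^ 2 / ((n : ℝ) + 3 / 4)) atTop (𝓝 (4 / Real.pi)) := by
  have h := w_lim
  have h2 : Tendsto (fun n : ℕ => ((n : ℝ) + 1) / ((n : ℝ) + 3 / 4)) atTop (𝓝 1) := by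
    have h3 : Tendsto (fun n : ℕ => (n : ℝ) / ((n : ℝ) + 3 / 4)) atTop (𝓝 1) :=
      tendsto_natCast_div_add_atTop (3 / 4 : ℝ)
    have h4 : Tendsto (fun n : ℕ => 1 / ((n : ℝ) + 3 / 4)) atTop (𝓝 0) :=
      (tendsto_const_nhds (x := (1 : ℝ))).div_atTop
        (tendsto_atTop_add_const_right _ _ tendsto_natCast_atTop_atTop)
    have h5 := h3.add h4
    rw [add_zero] at h5
    refine h5.congr fun n => ?_
    rw [← add_div]
  have h3 := h.mul h2
  rw [mul_one] at h3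
  refine h3.congr fun n => ?_
  unfold w
  have h4 : (n : ℝ) + 1 ≠ 0 := by positivity
  have h5 : (n : ℝ) + 3 / 4 ≠ 0 := by positivity
  field_simp

theorem anti34 : Antitone (fun n : ℕ => v n ^ 2 / ((n : ℝ) + 3 / 4)) := by
  refine antitone_nat_of_succ_le fun n => ?_
  rw [v_succ, mul_pow, div_pow]
  have h0 : 0 < v n ^ 2 := pow_pos (v_pos n) 2
  push_cast
  rw [mul_div_assoc, div_eq_mul_inv (v n ^ 2)]
  refine mul_le_mul_of_nonneg_left ?_ h0.le
  rw [div_div, inv_eq_one_div, div_le_div_iff₀ (by positivity) (by positivity)]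
  have hn : (0 : ℝ) ≤ n := Nat.cast_nonneg n
  nlinarith [mul_nonneg hn hn, mul_nonneg hn (mul_nonneg hn hn)]

theorem v_low34 (n : ℕ) : 4 / Real.pi * ((n : ℝ) + 3 / 4) ≤ v n ^ 2 := by
  have h := anti34.le_of_tendsto lim34 n
  rwa [le_div_iff₀ (by positivity)] at h

theorem bt_b (n : ℕ) : bt (-(1 / 2)) n = ((bs n : ℝ) : ℂ) := by
  unfold bt bs
  push_cast
  rfl

end SQaux

open SQaux

theorem sq : S_SQ := by
  refine ⟨?_, ?_, ?_, bt_b⟩
  · intro n hn
    obtain ⟨m, rfl⟩ : ∃ m, n = m + 1 := ⟨n - 1, by omega⟩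
    rw [us_v]
    push_cast
    refine ⟨v_pos m, v_low m, v_up m, ?_⟩
    have := v_low34 m
    have e : (m : ℝ) + 1 - 1 / 4 = m + 3 / 4 := by ring
    rw [e]
    exact this
  · intro M hM
    obtain ⟨m, rfl⟩ : ∃ m, M = m + 1 := ⟨M - 1, by omega⟩
    have h := (bt_b (m + 1)).symm.trans (bt_m m)
    have h2 : bs (m + 1) = -(v m) / (2 * ((m : ℝ) + 1) * (2 * m + 1)) := by exact_mod_cast h
    rw [h2, us_v, neg_div]
    push_cast
    congr 2
    ring
  · intro n
    exact bt_v (n - 1)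

end Pool.Agent.H64.SR
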