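import Pool.Agent.H64.SR.Stm

set_option autoImplicit false

namespace Pool.Agent.H64.SR

open scoped ENNReal

namespace TLx

theorem tl_key (s x : ℝ) (hs : 0 < s) (hx : 0 < x) :
    (x + 1) ^ (-1 - s) ≤ 1 / s * (x ^ (-s) - (x + 1) ^ (-s)) := by
  have hx1 : 0 < x + 1 := by linarith
  have hlog : 1 / (x + 1) ≤ Real.log (x + 1) - Real.log x := by
    have h1 := Real.log_le_sub_one_of_pos (show 0 < x / (x + 1) by positivity)
    rw [Real.log_div hx.ne' hx1.ne'] at h1
    have h2 : x / (x + 1) - 1 = -(1 / (x + 1)) := by field_simp; ring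
    linarith
  have h1 : x ^ (-s) = (x + 1) ^ (-s) * Real.exp (s * (Real.log (x + 1) - Real.log x)) := by
    rw [Real.rpow_def_of_pos hx, Real.rpow_def_of_pos hx1, ← Real.exp_add]
    congr 1
    ring
  have h2 : 1 + s / (x + 1) ≤ Real.exp (s * (Real.log (x + 1) - Real.log x)) := by
    calc 1 + s / (x + 1) = s * (1 / (x + 1)) + 1 := by ring
      _ ≤ s * (Real.log (x + 1) - Real.log x) + 1 := by
          have := mul_le_mul_of_nonneg_left hlog hs.le
          linarith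
      _ ≤ _ := Real.add_one_le_exp _
  have h3 : (x + 1) ^ (-1 - s) = (x + 1) ^ (-s) / (x + 1) := by
    rw [show -1 - s = -s - 1 by ring, Real.rpow_sub_one hx1.ne']
  have h4 : 0 < (x + 1) ^ (-s) := Real.rpow_pos_of_pos hx1 _
  rw [h1, h3]
  calc (x + 1) ^ (-s) / (x + 1) = 1 / s * ((x + 1) ^ (-s) * (1 + s / (x + 1)) - (x + 1) ^ (-s)) := by
        field_simp; ring
    _ ≤ _ := by
        apply mul_le_mul_of_nonneg_left _ (by positivity)
        have := mul_le_mul_of_nonneg_left h2 h4.le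
        linarith

theorem tl_part1 (s : ℝ) (j : ℕ) (hs : 0 < s) : ∑' k : ℕ, ENNReal.ofReal (((k : ℝ) + j + 1) ^ (-1 - s)) ≤
    ENNReal.ofReal ((1 + 1 / s) * ((j : ℝ) + 1) ^ (-s)) := by
  apply ENNReal.tsum_le_of_sum_range_le
  intro n
  have hj : (0 : ℝ) ≤ j := Nat.cast_nonneg _
  rw [← ENNReal.ofReal_sum_of_nonneg (fun i _ => by positivity)]
  apply ENNReal.ofReal_le_ofReal
  have hmain : ∀ n : ℕ, ∑ k ∈ Finset.range (n + 1), ((k : ℝ) + j + 1) ^ (-1 - s) ≤
      (1 + 1 / s) * ((j : ℝ) + 1) ^ (-s) - 1 / s * ((j : ℝ) + n + 1) ^ (-s) := by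
    intro n
    induction n with
    | zero =>
      simp only [Finset.sum_range_one, Nat.cast_zero, zero_add, add_zero]
      have h1 : ((j : ℝ) + 1) ^ (-1 - s) ≤ ((j : ℝ) + 1) ^ (-s) :=
        Real.rpow_le_rpow_of_exponent_le (by linarith) (by linarith)
      linarith
    | succ n ih =>
      rw [Finset.sum_range_succ]
      have hk := tl_key s ((j : ℝ) + n + 1) hs (by positivity)
      have e1 : (((n + 1 : ℕ) : ℝ) + j + 1) = ((j : ℝ) + n + 1) + 1 := by push_cast; ring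
      have e2 : ((j : ℝ) + ((n + 1 : ℕ) : ℝ) + 1) = ((j : ℝ) + n + 1) + 1 := by push_cast; ring
      rw [e1, e2]
      linarith
  rcases n with _ | n
  · simp
    positivity
  · have h := hmain n
    have h2 : 0 ≤ 1 / s * ((j : ℝ) + n + 1) ^ (-s) := by positivity
    linarith

theorem tl_part2 (c : ℝ) (m : ℕ) (hc : 0 < c) (hc1 : c ≤ 1) :
    ∑ j ∈ Finset.range m, ((j : ℝ) + 1) ^ (c - 1) ≤ (m : ℝ) ^ c / c := by
  induction m with
  | zero => simp [Real.zero_rpow hc.ne']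
  | succ m ih =>
    rw [Finset.sum_range_succ]
    have hm : (0 : ℝ) ≤ m := Nat.cast_nonneg _
    have hm1 : (0 : ℝ) < (m : ℝ) + 1 := by linarith
    have hb := rpow_one_add_le_one_add_mul_self (s := -(1 / ((m : ℝ) + 1)))
      (by
        have : 1 / ((m : ℝ) + 1) ≤ 1 := by rw [div_le_one hm1]; linarith
        linarith) hc.le hc1
    have e : 1 + -(1 / ((m : ℝ) + 1)) = (m : ℝ) / ((m : ℝ) + 1) := by field_simp; ring
    rw [e, Real.div_rpow hm hm1.le] at hb
    have hp : 0 < ((m : ℝ) + 1) ^ c := Real.rpow_pos_of_pos hm1 _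
    rw [div_le_iff₀ hp] at hb
    have h3 : ((m : ℝ) + 1) ^ (c - 1) = ((m : ℝ) + 1) ^ c / ((m : ℝ) + 1) := Real.rpow_sub_one hm1.ne' _
    have h4 : ((m : ℝ) + 1) ^ (c - 1) ≤ (((m : ℝ) + 1) ^ c - (m : ℝ) ^ c) / c := by
      rw [le_div_iff₀ hc, h3]
      have : (1 + c * -(1 / ((m : ℝ) + 1))) * ((m : ℝ) + 1) ^ c =
        ((m : ℝ) + 1) ^ c - ((m : ℝ) + 1) ^ c / ((m : ℝ) + 1) * c := by ring
      linarith
    push_cast
    calc _ ≤ (m : ℝ) ^ c / c + (((m : ℝ) + 1) ^ c - (m : ℝ) ^ c) / c := add_le_add ih h4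
      _ = _ := by ring

theorem tl_part3 (m : ℕ) (hm : 1 ≤ m) : ∑ k ∈ Finset.range m, 1 / ((k : ℝ) + 1 / 2) ≤ 2 + Real.log m := by
  induction m, hm using Nat.le_induction with
  | base => norm_num
  | succ m hm ih =>
    rw [Finset.sum_range_succ]
    have hm0 : (0 : ℝ) < m := by exact_mod_cast hm
    have h := Real.hasSum_log_one_add_inv hm0
    have h2 := le_hasSum h 0 (fun k _ => by positivity)
    have e : Real.log (1 + 1 / (m : ℝ)) = Real.log ((m : ℝ) + 1) - Real.log m := by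
      rw [← Real.log_div (by positivity) hm0.ne']
      congr 1
      field_simp
    have h3 : 1 / ((m : ℝ) + 1 / 2) ≤ Real.log ((m : ℝ) + 1) - Real.log m := by
      have e2 : 1 / ((m : ℝ) + 1 / 2) = 2 * (1 / (2 * (0 : ℕ) + 1)) * (1 / (2 * (m : ℝ) + 1)) ^ (2 * 0 + 1) := by
        have h5 : (2 * (m : ℝ) + 1) ≠ 0 := by positivity
        have h6 : ((m : ℝ) + 1 / 2) ≠ 0 := by positivity
        simp only [Nat.cast_zero, mul_zero, zero_add, pow_one]
        field_simp
      rw [e2, ← e]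
      simpa using h2
    push_cast
    linarith

theorem tl_part4 (m : ℕ) (hm : 1 ≤ m) : Real.log m ≤ ∑ k ∈ Finset.range m, 1 / ((k : ℝ) + 1) := by
  have h : ∀ m : ℕ, Real.log ((m : ℝ) + 1) ≤ ∑ k ∈ Finset.range m, 1 / ((k : ℝ) + 1) := by
    intro m
    induction m with
    | zero => simp
    | succ m ih =>
      rw [Finset.sum_range_succ]
      have hm1 : (0 : ℝ) < (m : ℝ) + 1 := by positivity
      have h1 := Real.log_le_sub_one_of_pos (show 0 < ((m : ℝ) + 1 + 1) / ((m : ℝ) + 1) by positivity)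
      rw [Real.log_div (by positivity) hm1.ne'] at h1
      have h2 : ((m : ℝ) + 1 + 1) / ((m : ℝ) + 1) - 1 = 1 / ((m : ℝ) + 1) := by field_simp; ring
      push_cast
      linarith
  have hm0 : (0 : ℝ) < m := by exact_mod_cast hm
  exact (Real.log_le_log hm0 (by linarith)).trans (h m)

end TLx

theorem tl : S_TL :=
  ⟨fun s j hs => TLx.tl_part1 s j hs, fun c m hc hc1 => TLx.tl_part2 c m hc hc1,
    fun m hm => TLx.tl_part3 m hm, fun m hm => TLx.tl_part4 m hm⟩

end Pool.Agent.H64.SR
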