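import Pool.Agent.H64.SR.Stm

set_option autoImplicit false

/-! # SR-V1 -/

namespace Pool.Agent.H64.SR

open Set Filter Topology MeasureTheory
open scoped ENNReal

namespace V1x

/-- the main factor -/
lemma l1 {σ m M : ℝ} (hσ0 : 0 < σ) (hσ1 : σ < 1) (hm : 1 ≤ m) (hM : m ≤ M) :
    m / M * (M + 1) ^ (1 - σ) ≤ (m + 1) ^ (1 - σ) := by
  have hM0 : 0 < M := by linarith
  have hw : 0 < (m + 1) ^ (1 - σ) := Real.rpow_pos_of_pos (by linarith) _
  have h1 : (M + 1) ^ (1 - σ) = ((M + 1) / (m + 1)) ^ (1 - σ) * (m + 1) ^ (1 - σ) := by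
    rw [← Real.mul_rpow (by positivity) (by positivity), div_mul_cancel₀ _ (by positivity)]
  have h2 : ((M + 1) / (m + 1)) ^ (1 - σ) ≤ (M + 1) / (m + 1) := by
    have h3 : 1 ≤ (M + 1) / (m + 1) := by
      rw [le_div_iff₀ (by linarith)]
      linarith
    have h4 := Real.rpow_le_rpow_of_exponent_le h3 (by linarith : 1 - σ ≤ 1)
    rwa [Real.rpow_one] at h4
  have h5 : m / M * ((M + 1) / (m + 1)) ≤ 1 := by
    rw [div_mul_div_comm, div_le_one (by positivity)]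
    nlinarith
  calc m / M * (M + 1) ^ (1 - σ) = m / M * ((M + 1) / (m + 1)) ^ (1 - σ) * (m + 1) ^ (1 - σ) := by
        rw [h1]; ring
    _ ≤ m / M * ((M + 1) / (m + 1)) * (m + 1) ^ (1 - σ) := by
        refine mul_le_mul_of_nonneg_right ?_ hw.le
        exact mul_le_mul_of_nonneg_left h2 (by positivity)
    _ ≤ 1 * (m + 1) ^ (1 - σ) := mul_le_mul_of_nonneg_right h5 hw.le
    _ = (m + 1) ^ (1 - σ) := one_mul _

lemma l2 {σ M : ℝ} (hM : 1 ≤ M) : (M + 1) ^ (1 - σ) / M ≤ 2 * (M + 1) ^ (-σ) := by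
  have h1 : (M + 1) ^ (1 - σ) = (M + 1) * (M + 1) ^ (-σ) := by
    rw [show (1 - σ) = 1 + -σ by ring, Real.rpow_add (by linarith), Real.rpow_one]
  have h2 : 0 < (M + 1) ^ (-σ) := Real.rpow_pos_of_pos (by linarith) _
  rw [h1, div_le_iff₀ (by linarith)]
  nlinarith

lemma l3 {σ x : ℝ} (hx : 0 < x) : x ^ (-σ) / x = x ^ (-1 - σ) := by
  rw [show -1 - σ = -σ - 1 by ring, Real.rpow_sub_one hx.ne']

/-- the tail -/
lemma ptail {σ m k : ℝ} (hσ0 : 0 < σ) (hm : 1 ≤ m) (hk : 0 ≤ k) :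
    m / (m + k + 1) * (m + k + 1 + 1) ^ (1 - σ) / (k + 1 / 2) ≤ 4 * m * (k + 1) ^ (-1 - σ) := by
  have h1 := l2 (σ := σ) (M := m + k + 1) (by linarith)
  have h2 : (m + k + 1 + 1) ^ (-σ) ≤ (k + 1) ^ (-σ) :=
    Real.rpow_le_rpow_of_nonpos (by linarith) (by linarith) (by linarith)
  have h3 : 0 < (k + 1) ^ (-σ) := Real.rpow_pos_of_pos (by linarith) _
  rw [← l3 (by linarith : 0 < k + 1)]
  have h4 : m / (m + k + 1) * (m + k + 1 + 1) ^ (1 - σ) / (k + 1 / 2) =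
      m * ((m + k + 1 + 1) ^ (1 - σ) / (m + k + 1)) * (1 / (k + 1 / 2)) := by ring
  have h5 : 1 / (k + 1 / 2) ≤ 2 / (k + 1) := by
    rw [div_le_div_iff₀ (by linarith) (by linarith)]
    linarith
  rw [h4]
  calc m * ((m + k + 1 + 1) ^ (1 - σ) / (m + k + 1)) * (1 / (k + 1 / 2))
      ≤ m * (2 * (k + 1) ^ (-σ)) * (2 / (k + 1)) := by
        refine mul_le_mul ?_ h5 (by positivity) (by positivity)
        refine mul_le_mul_of_nonneg_left ?_ (by linarith)
        linarith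
    _ = 4 * m * ((k + 1) ^ (-σ) / (k + 1)) := by ring

/-- the second part -/
lemma qpart {σ m k : ℝ} (hσ0 : 0 < σ) (hm : 1 ≤ m) (hk : 0 ≤ k) :
    m / (m + k + 1) * (m + k + 1 + 1) ^ (1 - σ) / (k + 1 / 2) *
      (3 * (k + 1) / ((m + k + 1) * Real.sqrt m)) ≤
    12 * Real.sqrt m * (k + m + 1) ^ (-1 - σ) := by
  have hs : 0 < Real.sqrt m := Real.sqrt_pos.2 (by linarith)
  have hss : Real.sqrt m * Real.sqrt m = m := Real.mul_self_sqrt (by linarith)
  have h1 := l2 (σ := σ) (M := m + k + 1) (by linarith)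
  have h2 : (m + k + 1 + 1) ^ (-σ) ≤ (m + k + 1) ^ (-σ) :=
    Real.rpow_le_rpow_of_nonpos (by linarith) (by linarith) (by linarith)
  have h3 : 0 < (m + k + 1) ^ (-σ) := Real.rpow_pos_of_pos (by linarith) _
  have e0 : k + m + 1 = m + k + 1 := by ring
  rw [e0, ← l3 (by linarith : 0 < m + k + 1)]
  have h4 : m / (m + k + 1) * (m + k + 1 + 1) ^ (1 - σ) / (k + 1 / 2) *
      (3 * (k + 1) / ((m + k + 1) * Real.sqrt m)) =
      Real.sqrt m * ((m + k + 1 + 1) ^ (1 - σ) / (m + k + 1)) * (1 / (m + k + 1)) *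
        (3 * ((k + 1) / (k + 1 / 2))) := by
    nth_rewrite 1 [← hss]
    field_simp
  have h5 : (k + 1) / (k + 1 / 2) ≤ 2 := by
    rw [div_le_iff₀ (by linarith)]
    linarith
  rw [h4]
  have h6 : 0 ≤ (k + 1) / (k + 1 / 2) := by positivity
  calc Real.sqrt m * ((m + k + 1 + 1) ^ (1 - σ) / (m + k + 1)) * (1 / (m + k + 1)) *
        (3 * ((k + 1) / (k + 1 / 2)))
      ≤ Real.sqrt m * (2 * (m + k + 1) ^ (-σ)) * (1 / (m + k + 1)) * (3 * 2) := by
        refine mul_le_mul ?_ (by linarith) (by linarith) (by positivity)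
        refine mul_le_mul_of_nonneg_right ?_ (by positivity)
        refine mul_le_mul_of_nonneg_left ?_ hs.le
        linarith
    _ = 12 * Real.sqrt m * ((m + k + 1) ^ (-σ) / (m + k + 1)) := by ring

end V1x

open V1x in
theorem v1 : S_V1 := by
  intro hSQ hBK hTL σ hσ hσ1
  obtain ⟨hT1, -, hT3, -⟩ := hTL
  have hσ0 : 0 < σ := by linarith
  have hpi : 0 < Real.pi := Real.pi_pos
  obtain ⟨R, hR⟩ : ∃ R : ℝ, R = 1 + 1 / σ := ⟨_, rfl⟩
  have hR0 : 0 < R := by rw [hR]; positivity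
  refine ⟨(3 + 4 * (2 + 16 * R)) / Real.pi ^ 2, by positivity, fun m hm => ?_⟩
  have hm1 : (1 : ℝ) ≤ m := by exact_mod_cast hm
  have hm0 : (0 : ℝ) < m := by linarith
  have hs : 0 < Real.sqrt m := Real.sqrt_pos.2 hm0
  obtain ⟨w, hw⟩ : ∃ w : ℝ, w = ((m : ℝ) + 1) ^ (1 - σ) := ⟨_, rfl⟩
  have hw0 : 0 < w := by rw [hw]; exact Real.rpow_pos_of_pos (by linarith) _
  have hwt : wt σ m = w := by rw [hw]; rfl
  obtain ⟨A, hA⟩ : ∃ A : ℝ, A = 1 / Real.pi ^ 2 * (1 + 3 / (m : ℝ)) := ⟨_, rfl⟩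
  have hA0 : 0 < A := by rw [hA]; positivity
  have hwσ : ((m : ℝ) + 1) * ((m : ℝ) + 1) ^ (-σ) = w := by
    rw [hw, show (1 - σ) = 1 + -σ by ring, Real.rpow_add (by linarith), Real.rpow_one]
  have hτ : 0 < ((m : ℝ) + 1) ^ (-σ) := Real.rpow_pos_of_pos (by linarith) _
  -- the pointwise bound
  have hpt : ∀ k : ℕ, ((k : ℝ) + 1 / 2) * wt σ (m + k + 1) * bb m k m ^ 2 ≤
      (if k < m then A * w * (1 / ((k : ℝ) + 1 / 2)) else A * (4 * m) * ((k : ℝ) + 1) ^ (-1 - σ)) +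
        A * (12 * Real.sqrt m) * ((k : ℝ) + m + 1) ^ (-1 - σ) := by
    intro k
    have hk : (0 : ℝ) ≤ k := Nat.cast_nonneg k
    obtain ⟨-, -, h1⟩ := hBK hSQ m k hm
    have hX : 0 < ((m : ℝ) + k + 1 + 1) ^ (1 - σ) := Real.rpow_pos_of_pos (by linarith) _
    have hwk : wt σ (m + k + 1) = ((m : ℝ) + k + 1 + 1) ^ (1 - σ) := by
      unfold wt
      push_cast
      rfl
    have h2 : ((k : ℝ) + 1 / 2) * wt σ (m + k + 1) * bb m k m ^ 2 ≤
        A * ((m : ℝ) / ((m : ℝ) + k + 1) * ((m : ℝ) + k + 1 + 1) ^ (1 - σ) / ((k : ℝ) + 1 / 2)) +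
        A * ((m : ℝ) / ((m : ℝ) + k + 1) * ((m : ℝ) + k + 1 + 1) ^ (1 - σ) / ((k : ℝ) + 1 / 2) *
          (3 * ((k : ℝ) + 1) / (((m : ℝ) + k + 1) * Real.sqrt m))) := by
      rw [hwk]
      refine (mul_le_mul_of_nonneg_left h1 (by positivity)).trans (le_of_eq ?_)
      rw [hA]
      have h3 : (k : ℝ) + 1 / 2 ≠ 0 := by positivity
      field_simp
    have h3 := qpart hσ0 hm1 hk
    refine h2.trans (add_le_add ?_ ?_)
    · split_ifs with hkm
      · have h4 := l1 (M := (m : ℝ) + k + 1) hσ0 hσ1 hm1 (by linarith)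
        rw [← hw] at h4
        rw [mul_assoc A w, mul_one_div]
        refine mul_le_mul_of_nonneg_left ?_ hA0.le
        exact div_le_div_of_nonneg_right h4 (by positivity)
      · rw [mul_assoc A]
        exact mul_le_mul_of_nonneg_left (ptail hσ0 hm1 hk) hA0.le
    · rw [mul_assoc A]
      exact mul_le_mul_of_nonneg_left h3 hA0.le
  have hnn1 : ∀ k : ℕ, 0 ≤ (if k < m then A * w * (1 / ((k : ℝ) + 1 / 2)) else
      A * (4 * m) * ((k : ℝ) + 1) ^ (-1 - σ)) := by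
    intro k
    split_ifs <;> positivity
  have hnn2 : ∀ k : ℕ, 0 ≤ A * (12 * Real.sqrt m) * ((k : ℝ) + m + 1) ^ (-1 - σ) := by
    intro k
    positivity
  -- sums
  have hsum2 : ∑' k : ℕ, ENNReal.ofReal (A * (12 * Real.sqrt m) * ((k : ℝ) + m + 1) ^ (-1 - σ)) ≤
      ENNReal.ofReal (A * (12 * R * w)) := by
    have h1 : ∀ k : ℕ, ENNReal.ofReal (A * (12 * Real.sqrt m) * ((k : ℝ) + m + 1) ^ (-1 - σ)) =
        ENNReal.ofReal (A * (12 * Real.sqrt m)) * ENNReal.ofReal (((k : ℝ) + m + 1) ^ (-1 - σ)) :=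
      fun k => ENNReal.ofReal_mul (by positivity)
    simp_rw [h1]
    rw [ENNReal.tsum_mul_left]
    refine (mul_le_mul_right (hT1 σ m hσ0) _).trans ?_
    rw [← ENNReal.ofReal_mul (by positivity)]
    refine ENNReal.ofReal_le_ofReal ?_
    have h2 : Real.sqrt m ≤ (m : ℝ) + 1 := by
      rw [Real.sqrt_le_left (by linarith)]
      nlinarith
    rw [← hR, mul_assoc A]
    refine mul_le_mul_of_nonneg_left ?_ hA0.le
    rw [← hwσ]
    calc 12 * Real.sqrt m * (R * ((m : ℝ) + 1) ^ (-σ)) ≤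
          12 * ((m : ℝ) + 1) * (R * ((m : ℝ) + 1) ^ (-σ)) :=
          mul_le_mul_of_nonneg_right (by linarith) (by positivity)
      _ = 12 * R * (((m : ℝ) + 1) * ((m : ℝ) + 1) ^ (-σ)) := by ring
  have hsum1 : ∑' k : ℕ, ENNReal.ofReal (if k < m then A * w * (1 / ((k : ℝ) + 1 / 2)) else
      A * (4 * m) * ((k : ℝ) + 1) ^ (-1 - σ)) ≤ ENNReal.ofReal (A * (w * (2 + Real.log m) + 4 * R * w)) := by
    rw [← Summable.sum_add_tsum_nat_add' (k := m) ENNReal.summable]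
    have h1 : ∑ k ∈ Finset.range m, ENNReal.ofReal (if k < m then A * w * (1 / ((k : ℝ) + 1 / 2)) else
        A * (4 * m) * ((k : ℝ) + 1) ^ (-1 - σ)) ≤ ENNReal.ofReal (A * (w * (2 + Real.log m))) := by
      rw [← ENNReal.ofReal_sum_of_nonneg (fun k _ => hnn1 k)]
      refine ENNReal.ofReal_le_ofReal ?_
      have h2 : ∑ k ∈ Finset.range m, (if k < m then A * w * (1 / ((k : ℝ) + 1 / 2)) else
          A * (4 * m) * ((k : ℝ) + 1) ^ (-1 - σ)) = A * w * ∑ k ∈ Finset.range m, 1 / ((k : ℝ) + 1 / 2) := by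
        rw [Finset.mul_sum]
        refine Finset.sum_congr rfl fun k hk => ?_
        rw [if_pos (Finset.mem_range.1 hk)]
      rw [h2, mul_assoc]
      exact mul_le_mul_of_nonneg_left (mul_le_mul_of_nonneg_left (hT3 m hm) hw0.le) hA0.le
    have h2 : ∑' k : ℕ, ENNReal.ofReal (if k + m < m then A * w * (1 / (((k + m : ℕ) : ℝ) + 1 / 2)) else
        A * (4 * m) * (((k + m : ℕ) : ℝ) + 1) ^ (-1 - σ)) ≤ ENNReal.ofReal (A * (4 * R * w)) := by
      have h3 : ∀ k : ℕ, ENNReal.ofReal (if k + m < m then A * w * (1 / (((k + m : ℕ) : ℝ) + 1 / 2)) else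
          A * (4 * m) * (((k + m : ℕ) : ℝ) + 1) ^ (-1 - σ)) =
          ENNReal.ofReal (A * (4 * m)) * ENNReal.ofReal (((k : ℝ) + m + 1) ^ (-1 - σ)) := by
        intro k
        rw [if_neg (by omega), ENNReal.ofReal_mul (by positivity)]
        push_cast
        rfl
      simp_rw [h3]
      rw [ENNReal.tsum_mul_left]
      refine (mul_le_mul_right (hT1 σ m hσ0) _).trans ?_
      rw [← ENNReal.ofReal_mul (by positivity)]
      refine ENNReal.ofReal_le_ofReal ?_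
      rw [← hR, mul_assoc A]
      refine mul_le_mul_of_nonneg_left ?_ hA0.le
      rw [← hwσ]
      calc 4 * (m : ℝ) * (R * ((m : ℝ) + 1) ^ (-σ)) ≤
            4 * ((m : ℝ) + 1) * (R * ((m : ℝ) + 1) ^ (-σ)) :=
            mul_le_mul_of_nonneg_right (by linarith) (by positivity)
        _ = 4 * R * (((m : ℝ) + 1) * ((m : ℝ) + 1) ^ (-σ)) := by ring
    refine (add_le_add h1 h2).trans ?_
    have hlog : 0 ≤ Real.log m := Real.log_nonneg hm1
    rw [← ENNReal.ofReal_add (by positivity) (by positivity), ← mul_add]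
  have hlog : 0 ≤ Real.log m := Real.log_nonneg hm1
  calc ∑' k : ℕ, ENNReal.ofReal (((k : ℝ) + 1 / 2) * wt σ (m + k + 1) * bb m k m ^ 2)
      ≤ ∑' k : ℕ, (ENNReal.ofReal (if k < m then A * w * (1 / ((k : ℝ) + 1 / 2)) else
          A * (4 * m) * ((k : ℝ) + 1) ^ (-1 - σ)) +
          ENNReal.ofReal (A * (12 * Real.sqrt m) * ((k : ℝ) + m + 1) ^ (-1 - σ))) := by
        refine ENNReal.tsum_le_tsum fun k => ?_
        rw [← ENNReal.ofReal_add (hnn1 k) (hnn2 k)]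
        exact ENNReal.ofReal_le_ofReal (hpt k)
    _ ≤ ENNReal.ofReal (A * (w * (2 + Real.log m) + 4 * R * w)) + ENNReal.ofReal (A * (12 * R * w)) := by
        rw [ENNReal.tsum_add]
        exact add_le_add hsum1 hsum2
    _ ≤ ENNReal.ofReal (wt σ m * (Real.log m / Real.pi ^ 2 + (3 + 4 * (2 + 16 * R)) / Real.pi ^ 2)) := by
        rw [← ENNReal.ofReal_add (by positivity) (by positivity), hwt]
        refine ENNReal.ofReal_le_ofReal ?_
        have h1 : Real.log m ≤ m := (Real.log_le_sub_one_of_pos hm0).trans (by linarith)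
        have h2 : 3 / (m : ℝ) * Real.log m ≤ 3 := by
          rw [div_mul_eq_mul_div, div_le_iff₀ hm0]
          linarith
        have h3 : 3 / (m : ℝ) ≤ 3 := by
          rw [div_le_iff₀ hm0]
          linarith
        have h4 : A * (w * (2 + Real.log m) + 4 * R * w) + A * (12 * R * w) =
            w * (1 / Real.pi ^ 2) * ((1 + 3 / (m : ℝ)) * (Real.log m + (2 + 16 * R))) := by
          rw [hA]; ring
        have h5 : w * (Real.log m / Real.pi ^ 2 + (3 + 4 * (2 + 16 * R)) / Real.pi ^ 2) =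
            w * (1 / Real.pi ^ 2) * (Real.log m + (3 + 4 * (2 + 16 * R))) := by ring
        rw [h4, h5]
        refine mul_le_mul_of_nonneg_left ?_ (by positivity)
        have h6 : (1 + 3 / (m : ℝ)) * (Real.log m + (2 + 16 * R)) =
            Real.log m + 3 / (m : ℝ) * Real.log m + (2 + 16 * R) + 3 / (m : ℝ) * (2 + 16 * R) := by ring
        have h7 : 3 / (m : ℝ) * (2 + 16 * R) ≤ 3 * (2 + 16 * R) :=
          mul_le_mul_of_nonneg_right h3 (by positivity)
        rw [h6]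
        linarith

end Pool.Agent.H64.SR
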