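import Pool.Agent.H64.SR.Stm

set_option autoImplicit false

/-! # SR-V2: the sum over the last column with the factor `mx` -/

namespace Pool.Agent.H64.SR

open Set Filter Topology MeasureTheory
open scoped ENNReal

namespace V2x

theorem mx_pos (m k : ℕ) : 1 ≤ mx m k := le_max_left _ _

theorem bb_sq_le (hSQ : S_SQ) (hBK : S_BK) (m k : ℕ) (hm : 1 ≤ m) :
    bb m k m ^ 2 ≤ 8 * (((m : ℝ) / ((m : ℝ) + k + 1)) / ((k : ℝ) + 1) ^ 2) := by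
  have h := (hBK hSQ m k hm).2.2
  have hm1 : (1 : ℝ) ≤ m := by exact_mod_cast hm
  have hk : (0 : ℝ) ≤ k := Nat.cast_nonneg k
  have hpi : (3 : ℝ) < Real.pi := Real.pi_gt_three
  have e1 : 1 / Real.pi ^ 2 ≤ 1 / 9 := by
    apply one_div_le_one_div_of_le (by norm_num)
    nlinarith
  have e2 : 1 + 3 / (m : ℝ) ≤ 4 := by
    have : 3 / (m : ℝ) ≤ 3 := by
      rw [div_le_iff₀ (by linarith)]
      linarith
    linarith
  have e3 : ((k : ℝ) + 1) ^ 2 / 4 ≤ ((k : ℝ) + 1 / 2) ^ 2 := by nlinarith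
  have hs : 1 ≤ Real.sqrt m := by
    rw [← Real.sqrt_one]
    exact Real.sqrt_le_sqrt hm1
  have e4 : 1 + 3 * ((k : ℝ) + 1) / (((m : ℝ) + k + 1) * Real.sqrt m) ≤ 4 := by
    have : 3 * ((k : ℝ) + 1) / (((m : ℝ) + k + 1) * Real.sqrt m) ≤ 3 := by
      rw [div_le_iff₀ (by positivity)]
      nlinarith [mul_nonneg (by linarith : (0 : ℝ) ≤ (m : ℝ) + k + 1) (by linarith : 0 ≤ Real.sqrt m - 1)]
    linarith
  set A := (m : ℝ) / ((m : ℝ) + k + 1) with hA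
  have hA0 : 0 ≤ A := by positivity
  have hk1 : (0 : ℝ) < ((k : ℝ) + 1) ^ 2 := by positivity
  have e5 : 0 ≤ A / ((k : ℝ) + 1) ^ 2 := by positivity
  calc bb m k m ^ 2 ≤ _ := h
    _ ≤ 1 / 9 * 4 * A / (((k : ℝ) + 1) ^ 2 / 4) * 4 := by gcongr
    _ = 64 / 9 * (A / ((k : ℝ) + 1) ^ 2) := by field_simp; ring
    _ ≤ 8 * (A / ((k : ℝ) + 1) ^ 2) := by nlinarith

/-- the term -/
noncomputable def t (σ : ℝ) (m k : ℕ) : ℝ :=
  ((k : ℝ) + 1) * wt σ (m + k + 1) * bb m k m ^ 2 / mx m k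

theorem wt_eq (σ : ℝ) (m k : ℕ) : wt σ (m + k + 1) = ((m : ℝ) + k + 1 + 1) ^ (1 - σ) := by
  unfold wt
  push_cast
  rfl

theorem t_le (hSQ : S_SQ) (hBK : S_BK) {σ : ℝ} (m k : ℕ) (hm : 1 ≤ m) :
    t σ m k ≤ 8 * ((m : ℝ) / ((m : ℝ) + k + 1)) * ((m : ℝ) + k + 1 + 1) ^ (1 - σ) /
      (((k : ℝ) + 1) * mx m k) := by
  have h := bb_sq_le hSQ hBK m k hm
  have hk : (0 : ℝ) ≤ k := Nat.cast_nonneg k
  have hmx := mx_pos m k
  have hw : 0 ≤ wt σ (m + k + 1) := by rw [wt_eq]; positivity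
  unfold t
  calc ((k : ℝ) + 1) * wt σ (m + k + 1) * bb m k m ^ 2 / mx m k
      ≤ ((k : ℝ) + 1) * wt σ (m + k + 1) *
        (8 * (((m : ℝ) / ((m : ℝ) + k + 1)) / ((k : ℝ) + 1) ^ 2)) / mx m k := by gcongr
    _ = _ := by
      rw [wt_eq]
      have h1 : (k : ℝ) + 1 ≠ 0 := by positivity
      have h2 : mx m k ≠ 0 := by positivity
      have h3 : (m : ℝ) + k + 1 ≠ 0 := by positivity
      field_simp

theorem t_le_far (hSQ : S_SQ) (hBK : S_BK) {σ : ℝ} (h0 : 0 < σ) (m k : ℕ) (hm : 1 ≤ m) :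
    t σ m k ≤ 16 * m * ((k : ℝ) + 1) ^ (-1 - σ) := by
  refine (t_le hSQ hBK m k hm).trans ?_
  have hm1 : (1 : ℝ) ≤ m := by exact_mod_cast hm
  have hk : (0 : ℝ) ≤ k := Nat.cast_nonneg k
  have hmx := mx_pos m k
  set M := (m : ℝ) + k + 1 with hM
  have hM1 : 2 ≤ M := by linarith
  have hk1 : (0 : ℝ) < (k : ℝ) + 1 := by positivity
  have e1 : (M + 1) ^ (1 - σ) = (M + 1) * (M + 1) ^ (-σ) := by
    rw [sub_eq_add_neg, Real.rpow_add (by linarith), Real.rpow_one]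
  have e2 : (M + 1) ^ (-σ) ≤ ((k : ℝ) + 1) ^ (-σ) :=
    Real.rpow_le_rpow_of_nonpos hk1 (by linarith) (by linarith)
  have e3 : ((k : ℝ) + 1) ^ (-1 - σ) = ((k : ℝ) + 1) ^ (-σ) / ((k : ℝ) + 1) := by
    rw [show (-1 - σ) = -σ - 1 by ring, Real.rpow_sub_one hk1.ne']
  have hp : 0 ≤ ((k : ℝ) + 1) ^ (-σ) := by positivity
  have e4 : (M + 1) ^ (1 - σ) ≤ 2 * M * ((k : ℝ) + 1) ^ (-σ) := by
    rw [e1]
    exact mul_le_mul (by linarith) e2 (by positivity) (by positivity)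
  calc 8 * ((m : ℝ) / M) * (M + 1) ^ (1 - σ) / (((k : ℝ) + 1) * mx m k)
      ≤ 8 * ((m : ℝ) / M) * (2 * M * ((k : ℝ) + 1) ^ (-σ)) / (((k : ℝ) + 1) * 1) := by gcongr
    _ = 16 * m * ((k : ℝ) + 1) ^ (-1 - σ) := by
      rw [e3]
      have h3 : M ≠ 0 := by positivity
      field_simp
      ring

theorem t_le_near (hSQ : S_SQ) (hBK : S_BK) {σ : ℝ} (h0 : 0 < σ) (h1 : σ < 1) (m k : ℕ)
    (hm : 1 ≤ m) :
    t σ m k ≤ 8 * ((m : ℝ) + 1) ^ (1 - σ) / (m : ℝ) ^ (1 / 10 : ℝ) *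
      ((k : ℝ) + 1) ^ ((1 / 10 : ℝ) - 1) := by
  refine (t_le hSQ hBK m k hm).trans ?_
  have hm1 : (1 : ℝ) ≤ m := by exact_mod_cast hm
  have hk : (0 : ℝ) ≤ k := Nat.cast_nonneg k
  set M := (m : ℝ) + k + 1 with hM
  have hM1 : 2 ≤ M := by linarith
  have hk1 : (0 : ℝ) < (k : ℝ) + 1 := by positivity
  have hμ : ((m : ℝ) / ((k : ℝ) + 1)) ^ (1 / 10 : ℝ) ≤ mx m k := le_max_right _ _
  have hμ0 : 0 < ((m : ℝ) / ((k : ℝ) + 1)) ^ (1 / 10 : ℝ) := by positivity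
  have e1 : (M + 1) ^ (1 - σ) = ((m : ℝ) + 1) ^ (1 - σ) * ((M + 1) / ((m : ℝ) + 1)) ^ (1 - σ) := by
    rw [← Real.mul_rpow (by positivity) (by positivity)]
    congr 1
    field_simp
  have e2 : ((M + 1) / ((m : ℝ) + 1)) ^ (1 - σ) ≤ (M + 1) / ((m : ℝ) + 1) := by
    have h2 : 1 ≤ (M + 1) / ((m : ℝ) + 1) := by
      rw [le_div_iff₀ (by positivity)]
      linarith
    calc ((M + 1) / ((m : ℝ) + 1)) ^ (1 - σ) ≤ ((M + 1) / ((m : ℝ) + 1)) ^ (1 : ℝ) :=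
          Real.rpow_le_rpow_of_exponent_le h2 (by linarith)
      _ = _ := Real.rpow_one _
  have e3 : (m : ℝ) / M * ((M + 1) / ((m : ℝ) + 1)) ≤ 1 := by
    rw [div_mul_div_comm, div_le_one (by positivity)]
    nlinarith
  have hp : 0 ≤ ((m : ℝ) + 1) ^ (1 - σ) := by positivity
  have e4 : (m : ℝ) / M * (M + 1) ^ (1 - σ) ≤ ((m : ℝ) + 1) ^ (1 - σ) := by
    rw [e1]
    calc (m : ℝ) / M * (((m : ℝ) + 1) ^ (1 - σ) * ((M + 1) / ((m : ℝ) + 1)) ^ (1 - σ))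
        ≤ (m : ℝ) / M * (((m : ℝ) + 1) ^ (1 - σ) * ((M + 1) / ((m : ℝ) + 1))) := by gcongr
      _ = ((m : ℝ) + 1) ^ (1 - σ) * ((m : ℝ) / M * ((M + 1) / ((m : ℝ) + 1))) := by ring
      _ ≤ ((m : ℝ) + 1) ^ (1 - σ) * 1 := mul_le_mul_of_nonneg_left e3 hp
      _ = _ := mul_one _
  calc 8 * ((m : ℝ) / M) * (M + 1) ^ (1 - σ) / (((k : ℝ) + 1) * mx m k)
      = 8 * ((m : ℝ) / M * (M + 1) ^ (1 - σ)) / (((k : ℝ) + 1) * mx m k) := by ring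
    _ ≤ 8 * ((m : ℝ) + 1) ^ (1 - σ) /
        (((k : ℝ) + 1) * ((m : ℝ) / ((k : ℝ) + 1)) ^ (1 / 10 : ℝ)) := by gcongr
    _ = _ := by
      rw [Real.div_rpow (by positivity) hk1.le, Real.rpow_sub_one hk1.ne']
      have h3 : (m : ℝ) ^ (1 / 10 : ℝ) ≠ 0 := by positivity
      have h4 : ((k : ℝ) + 1) ^ (1 / 10 : ℝ) ≠ 0 := by positivity
      field_simp

end V2x

open V2x

theorem v2 : S_V2 := by
  intro hSQ hBK hTL σ h0 h1
  have hσ : 0 < σ := by linarith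
  refine ⟨80 + 16 * (1 + 1 / σ), by positivity, fun m hm => ?_⟩
  have hm1 : (1 : ℝ) ≤ m := by exact_mod_cast hm
  have hW : wt σ m = ((m : ℝ) + 1) ^ (1 - σ) := rfl
  have hp : 0 ≤ ((m : ℝ) + 1) ^ (1 - σ) := by positivity
  have hmp : 0 < (m : ℝ) ^ (1 / 10 : ℝ) := by positivity
  have hsplit : ∑' k : ℕ, ENNReal.ofReal (t σ m k) =
      ∑ k ∈ Finset.range m, ENNReal.ofReal (t σ m k) + ∑' k : ℕ, ENNReal.ofReal (t σ m (k + m)) :=
    (ENNReal.summable.sum_add_tsum_nat_add' (f := fun k => ENNReal.ofReal (t σ m k))).symm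
  show ∑' k : ℕ, ENNReal.ofReal (t σ m k) ≤ _
  rw [hsplit]
  have hA : ∑ k ∈ Finset.range m, ENNReal.ofReal (t σ m k) ≤
      ENNReal.ofReal (80 * ((m : ℝ) + 1) ^ (1 - σ)) := by
    calc ∑ k ∈ Finset.range m, ENNReal.ofReal (t σ m k)
        ≤ ∑ k ∈ Finset.range m, ENNReal.ofReal (8 * ((m : ℝ) + 1) ^ (1 - σ) /
          (m : ℝ) ^ (1 / 10 : ℝ) * ((k : ℝ) + 1) ^ ((1 / 10 : ℝ) - 1)) :=
          Finset.sum_le_sum fun k _ => ENNReal.ofReal_le_ofReal (t_le_near hSQ hBK hσ h1 m k hm)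
      _ = ENNReal.ofReal (∑ k ∈ Finset.range m, 8 * ((m : ℝ) + 1) ^ (1 - σ) /
          (m : ℝ) ^ (1 / 10 : ℝ) * ((k : ℝ) + 1) ^ ((1 / 10 : ℝ) - 1)) :=
          (ENNReal.ofReal_sum_of_nonneg fun k _ => by positivity).symm
      _ ≤ _ := by
        apply ENNReal.ofReal_le_ofReal
        rw [← Finset.mul_sum]
        have h2 := hTL.2.1 (1 / 10) m (by norm_num) (by norm_num)
        calc 8 * ((m : ℝ) + 1) ^ (1 - σ) / (m : ℝ) ^ (1 / 10 : ℝ) *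
              ∑ k ∈ Finset.range m, ((k : ℝ) + 1) ^ ((1 / 10 : ℝ) - 1)
            ≤ 8 * ((m : ℝ) + 1) ^ (1 - σ) / (m : ℝ) ^ (1 / 10 : ℝ) *
              ((m : ℝ) ^ (1 / 10 : ℝ) / (1 / 10)) := mul_le_mul_of_nonneg_left h2 (by positivity)
          _ = 80 * ((m : ℝ) + 1) ^ (1 - σ) := by
            field_simp
            ring
  have hB : ∑' k : ℕ, ENNReal.ofReal (t σ m (k + m)) ≤
      ENNReal.ofReal (16 * (1 + 1 / σ) * ((m : ℝ) + 1) ^ (1 - σ)) := by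
    calc ∑' k : ℕ, ENNReal.ofReal (t σ m (k + m))
        ≤ ∑' k : ℕ, ENNReal.ofReal (16 * m) * ENNReal.ofReal (((k : ℝ) + m + 1) ^ (-1 - σ)) := by
          refine ENNReal.tsum_le_tsum fun k => ?_
          rw [← ENNReal.ofReal_mul (by positivity)]
          apply ENNReal.ofReal_le_ofReal
          have h2 := t_le_far hSQ hBK hσ m (k + m) hm
          push_cast at h2
          exact h2
      _ = ENNReal.ofReal (16 * m) * ∑' k : ℕ, ENNReal.ofReal (((k : ℝ) + m + 1) ^ (-1 - σ)) :=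
          ENNReal.tsum_mul_left
      _ ≤ ENNReal.ofReal (16 * m) * ENNReal.ofReal ((1 + 1 / σ) * ((m : ℝ) + 1) ^ (-σ)) := by
          gcongr
          exact hTL.1 σ m hσ
      _ = ENNReal.ofReal (16 * m * ((1 + 1 / σ) * ((m : ℝ) + 1) ^ (-σ))) :=
          (ENNReal.ofReal_mul (by positivity)).symm
      _ ≤ _ := by
        apply ENNReal.ofReal_le_ofReal
        have e1 : ((m : ℝ) + 1) ^ (1 - σ) = ((m : ℝ) + 1) * ((m : ℝ) + 1) ^ (-σ) := by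
          rw [sub_eq_add_neg, Real.rpow_add (by linarith), Real.rpow_one]
        rw [e1]
        have h3 : 0 ≤ (1 + 1 / σ) * ((m : ℝ) + 1) ^ (-σ) := by positivity
        nlinarith
  calc _ ≤ ENNReal.ofReal (80 * ((m : ℝ) + 1) ^ (1 - σ)) +
        ENNReal.ofReal (16 * (1 + 1 / σ) * ((m : ℝ) + 1) ^ (1 - σ)) := add_le_add hA hB
    _ = ENNReal.ofReal (80 * ((m : ℝ) + 1) ^ (1 - σ) +
        16 * (1 + 1 / σ) * ((m : ℝ) + 1) ^ (1 - σ)) :=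
        (ENNReal.ofReal_add (by positivity) (by positivity)).symm
    _ = _ := by
      congr 1
      rw [hW]
      ring

end Pool.Agent.H64.SR
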