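import Pool.Agent.H64.SR.Stm

/-! # SR-V3 (helper72): summability of the last column and the lower bound of its sum -/

set_option autoImplicit false

namespace Pool.Agent.H64.SR

open Set Filter Topology MeasureTheory

theorem v3_sq (hB : S_SQ → S_BK) (hS : S_SQ) (m k : ℕ) (hm : 1 ≤ m) :
    |bb m k m| ≤ 8 * Real.sqrt m * ((k : ℝ) + 1) ^ (-(3 / 2) : ℝ) := by
  obtain ⟨-, -, h⟩ := (hB hS) hS m k hm
  have hm1 : (1 : ℝ) ≤ m := by exact_mod_cast hm
  have hk : (0 : ℝ) ≤ k := Nat.cast_nonneg k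
  have hk1 : (0 : ℝ) < (k : ℝ) + 1 := by linarith
  have hs1 : 1 ≤ Real.sqrt m := by
    rw [Real.one_le_sqrt]
    exact hm1
  have hpi : (1 : ℝ) ≤ Real.pi ^ 2 := by
    have := Real.pi_gt_three
    nlinarith
  have a1 : 1 / Real.pi ^ 2 ≤ 1 := by
    rw [div_le_one (by positivity)]
    exact hpi
  have a2 : 1 + 3 / (m : ℝ) ≤ 4 := by
    have : 3 / (m : ℝ) ≤ 3 := by
      rw [div_le_iff₀ (by linarith)]
      linarith
    linarith
  have a3 : (m : ℝ) / ((m : ℝ) + k + 1) ≤ m / ((k : ℝ) + 1) :=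
    div_le_div_of_nonneg_left (by linarith) hk1 (by linarith)
  have a4 : 1 / ((k : ℝ) + 1 / 2) ^ 2 ≤ 4 / ((k : ℝ) + 1) ^ 2 := by
    rw [div_le_div_iff₀ (by positivity) (by positivity)]
    nlinarith
  have a5 : 1 + 3 * ((k : ℝ) + 1) / (((m : ℝ) + k + 1) * Real.sqrt m) ≤ 4 := by
    have : 3 * ((k : ℝ) + 1) / (((m : ℝ) + k + 1) * Real.sqrt m) ≤ 3 := by
      rw [div_le_iff₀ (by positivity)]
      have : ((k : ℝ) + 1) * 1 ≤ ((m : ℝ) + k + 1) * Real.sqrt m :=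
        mul_le_mul (by linarith) hs1 (by norm_num) (by positivity)
      linarith
    linarith
  have h1 : bb m k m ^ 2 ≤ 64 * m / ((k : ℝ) + 1) ^ 3 := by
    refine h.trans ?_
    have e : 1 / Real.pi ^ 2 * (1 + 3 / (m : ℝ)) * ((m : ℝ) / ((m : ℝ) + k + 1)) /
      ((k : ℝ) + 1 / 2) ^ 2 * (1 + 3 * ((k : ℝ) + 1) / (((m : ℝ) + k + 1) * Real.sqrt m)) =
      1 / Real.pi ^ 2 * (1 + 3 / (m : ℝ)) * ((m : ℝ) / ((m : ℝ) + k + 1)) *
      (1 / ((k : ℝ) + 1 / 2) ^ 2) * (1 + 3 * ((k : ℝ) + 1) / (((m : ℝ) + k + 1) * Real.sqrt m)) := by ring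
    rw [e]
    calc 1 / Real.pi ^ 2 * (1 + 3 / (m : ℝ)) * ((m : ℝ) / ((m : ℝ) + k + 1)) *
      (1 / ((k : ℝ) + 1 / 2) ^ 2) * (1 + 3 * ((k : ℝ) + 1) / (((m : ℝ) + k + 1) * Real.sqrt m))
        ≤ 1 * 4 * (m / ((k : ℝ) + 1)) * (4 / ((k : ℝ) + 1) ^ 2) * 4 := by gcongr
      _ = 64 * m / ((k : ℝ) + 1) ^ 3 := by
          field_simp
          ring
  have h2 : 0 ≤ 8 * Real.sqrt m * ((k : ℝ) + 1) ^ (-(3 / 2) : ℝ) := by positivity
  apply abs_le_of_sq_le_sq _ h2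
  refine h1.trans (le_of_eq ?_)
  have e1 : (((k : ℝ) + 1) ^ (-(3 / 2) : ℝ)) ^ 2 = (((k : ℝ) + 1) ^ 3)⁻¹ := by
    rw [← Real.rpow_natCast (((k : ℝ) + 1) ^ (-(3 / 2) : ℝ)) 2, ← Real.rpow_mul hk1.le,
      ← Real.rpow_natCast ((k : ℝ) + 1) 3, ← Real.rpow_neg hk1.le]
    norm_num
  rw [mul_pow, mul_pow, e1, Real.sq_sqrt (by linarith)]
  ring

theorem v3 : S_V3 := by
  intro hS hB hT m hm
  have hm1 : (1 : ℝ) ≤ m := by exact_mod_cast hm
  have hsum : Summable fun k : ℕ => bb m k m := by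
    have h0 : Summable fun k : ℕ => ((k : ℝ) + 1) ^ (-(3 / 2) : ℝ) := by
      have h1 : Summable fun k : ℕ => (k : ℝ) ^ (-(3 / 2) : ℝ) := by
        rw [Real.summable_nat_rpow]
        norm_num
      have h2 := (summable_nat_add_iff 1).2 h1
      refine h2.congr fun k => ?_
      push_cast
      rfl
    refine Summable.of_norm_bounded (h0.mul_left (8 * Real.sqrt m)) fun k => ?_
    rw [Real.norm_eq_abs]
    exact v3_sq (fun _ => hB) hS m k hm
  refine ⟨hsum, ?_⟩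
  have hneg : ∀ k, bb m k m < 0 := fun k => (hB hS m k hm).1
  have h1 : |∑' k : ℕ, bb m k m| = ∑' k : ℕ, -bb m k m := by
    rw [tsum_neg, abs_of_nonpos]
    exact tsum_nonpos fun k => (hneg k).le
  have h2 : ∑ k ∈ Finset.range m, -bb m k m ≤ ∑' k : ℕ, -bb m k m :=
    hsum.neg.sum_le_tsum _ fun k _ => by linarith [hneg k]
  have hpi := Real.pi_gt_three
  have h3 : ∀ k ∈ Finset.range m, 1 / Real.pi * (1 / ((k : ℝ) + 1) - 5 / 4 / m) ≤ -bb m k m := by
    intro k _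
    have hk : (0 : ℝ) ≤ k := Nat.cast_nonneg k
    have hk1 : (0 : ℝ) < (k : ℝ) + 1 := by linarith
    refine le_trans ?_ (hB hS m k hm).2.1
    obtain ⟨x, hx⟩ : ∃ x : ℝ, x = ((m : ℝ) - 1 / 4) / ((m : ℝ) + k + 1) := ⟨_, rfl⟩
    rw [← hx]
    have hx0 : 0 ≤ x := by
      rw [hx]
      apply div_nonneg <;> linarith
    have hx1 : x ≤ 1 := by
      rw [hx, div_le_one (by positivity)]
      linarith
    have hxs : x ≤ Real.sqrt x := by
      apply Real.le_sqrt_of_sq_le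
      nlinarith
    have hxl : 1 - 5 / 4 * ((k : ℝ) + 1) / m ≤ x := by
      have e : x = 1 - ((k : ℝ) + 5 / 4) / ((m : ℝ) + k + 1) := by
        rw [hx]
        have : (m : ℝ) + k + 1 ≠ 0 := by positivity
        field_simp
        ring
      rw [e]
      have : ((k : ℝ) + 5 / 4) / ((m : ℝ) + k + 1) ≤ 5 / 4 * ((k : ℝ) + 1) / m := by
        apply div_le_div₀ (by positivity) (by linarith) (by linarith) (by linarith)
      linarith
    rw [mul_div_assoc]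
    apply mul_le_mul_of_nonneg_left _ (by positivity)
    have e2 : 1 / ((k : ℝ) + 1) - 5 / 4 / m = (1 - 5 / 4 * ((k : ℝ) + 1) / m) / ((k : ℝ) + 1) := by
      have : (m : ℝ) ≠ 0 := by positivity
      field_simp
    rw [e2]
    exact div_le_div_of_nonneg_right (hxl.trans hxs) hk1.le
  have h4 := Finset.sum_le_sum h3
  rw [← Finset.mul_sum, Finset.sum_sub_distrib, Finset.sum_const, Finset.card_range, nsmul_eq_mul] at h4
  have h5 := hT.2.2.2 m hm
  have h6 : (m : ℝ) * (5 / 4 / m) = 5 / 4 := by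
    have : (m : ℝ) ≠ 0 := by positivity
    field_simp
  rw [h6] at h4
  rw [h1]
  have h7 : Real.log m / Real.pi - 1 / 2 ≤
      1 / Real.pi * (∑ k ∈ Finset.range m, 1 / ((k : ℝ) + 1) - 5 / 4) := by
    have h8 : 1 / Real.pi * (Real.log m - 5 / 4) ≤
        1 / Real.pi * (∑ k ∈ Finset.range m, 1 / ((k : ℝ) + 1) - 5 / 4) := by
      apply mul_le_mul_of_nonneg_left _ (by positivity)
      linarith
    refine le_trans ?_ h8
    have h9 : 1 / Real.pi * (5 / 4) ≤ 1 / 2 := by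
      rw [div_mul_eq_mul_div, div_le_iff₀ (by positivity)]
      linarith
    have e3 : 1 / Real.pi * (Real.log m - 5 / 4) = Real.log m / Real.pi - 1 / Real.pi * (5 / 4) := by ring
    rw [e3]
    linarith
  linarith

end Pool.Agent.H64.SR
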