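import Pool.Agent.H64.SR.Redf
import Pool.Agent.H64.SR.SQ
import Pool.Agent.H64.SR.BK
import Pool.Agent.H64.SR.TL
import Pool.Agent.H64.SR.V1
import Pool.Agent.H64.SR.V2
import Pool.Agent.H64.SR.V3
import Pool.Agent.H64.SR.PW
import Pool.Agent.H64.SR.IV
import Pool.Agent.H76.CZ.ID2
import Pool.Agent.H76.CZ.PHI
import Pool.Agent.H76.CZ.INT
import Pool.Agent.H76.CZ.LIM3

set_option autoImplicit false

namespace Pool.Agent.H64.SR

/-- the reduced rows -/
theorem redf_all : Pool.Agent.H7.SZ.S_REDF :=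
  redf sq bk tl v1 v2 v3 pw iv Pool.Agent.H76.CZ.id2 Pool.Agent.H76.CZ.phi Pool.Agent.H76.CZ.int
    Pool.Agent.H76.CZ.lim3

end Pool.Agent.H64.SR
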