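import Pool.Agent.H76.CZ.Stm

set_option autoImplicit false

/-! # SR: the explicit rows of the one-sided identity at `α = -1/2` (statements)

Everywhere the index `k : ℕ` stands for the row `k + 1`, and `M = m + k + 1`. -/

namespace Pool.Agent.H64.SR

open Set Filter Topology MeasureTheory
open scoped ENNReal
open Pool.Agent.H64.CX (bt)
open Pool.Agent.H76.CZ (WW)

/-- `us n = bt (3/2) (n-1)` -/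
noncomputable def us (n : ℕ) : ℝ := ∏ i ∈ Finset.range (n - 1), ((3 / 2 + (i : ℝ)) / ((i : ℝ) + 1))

/-- `bs n = bt (-1/2) n` -/
noncomputable def bs (n : ℕ) : ℝ := ∏ i ∈ Finset.range n, ((-(1 / 2) + (i : ℝ)) / ((i : ℝ) + 1))

/-- the rows -/
noncomputable def bb (m k n : ℕ) : ℝ :=
  bs (m + k + 1) * (((m : ℝ) + k + 1) * us n / ((m : ℝ) + k + 1 - n - 1 / 2) + if n = m then 1 else 0)

/-- the weights -/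
noncomputable def wt (σ : ℝ) (j : ℕ) : ℝ := ((j : ℝ) + 1) ^ (1 - σ)

/-- the factor which removes the logarithm -/
noncomputable def mx (m k : ℕ) : ℝ := max 1 (((m : ℝ) / ((k : ℝ) + 1)) ^ (1 / 10 : ℝ))

/-- the truncation factor -/
noncomputable def tr (ε : ℝ) (m n : ℕ) : ℝ := min 1 (((n : ℝ) / (ε * m)) ^ (1 / 2 : ℝ))

/-- SR-SQ (80 lines). Proof. `us (n+1) = us n * (n + 1/2) / n` for `n ≥ 1`. So `us n ^ 2 / n` is increasing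
(`(n + 1/2)^2 ≥ n (n+1)`), `us n ^ 2 / (n - 1/4)` is decreasing (`(n+1/2)^2 (n-1/4) ≤ n^2 (n+3/4)`), both
tend to `4/π` (`Pool.Agent.H64.CX.un` at `α = -1/2`, see `Pool/Agent/H76/CZ/U2.lean` for the same argument);
`us 1 = 1`. The formula for `bs` by induction. The casts: products. -/
def S_SQ : Prop :=
  (∀ n : ℕ, 1 ≤ n → 0 < us n ∧ (n : ℝ) ≤ us n ^ 2 ∧ us n ^ 2 ≤ 4 / Real.pi * n ∧
    4 / Real.pi * ((n : ℝ) - 1 / 4) ≤ us n ^ 2) ∧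
  (∀ M : ℕ, 1 ≤ M → bs M = -(us M / (2 * M * (2 * M - 1)))) ∧
  (∀ n : ℕ, bt (1 - (-(1 / 2))) (n - 1) = (us n : ℂ)) ∧ (∀ n : ℕ, bt (-(1 / 2)) n = (bs n : ℂ))

/-- SR-BK (80 lines, from SQ): the last column. Proof. `M = m + k + 1`; `bb m k m = bs M * (M us m / (k+1/2) + 1)`,
`bs M < 0`. Lower bound: `bs M ^ 2 = us M ^2 / (4 M^2 (2M-1)^2) ≥ (1/(4π)) / M^3` (`M (M-1/4) ≥ (M-1/2)^2`),
`us m ≥ (2/√π) √(m-1/4)`, `M us m / (k+1/2) + 1 ≥ M us m / (k+1)`. Upper bound: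
`bs M ^ 2 * M^2 ≤ (1/(4 π M)) (M/(M-1/2))^2`, `(M/(M-1/2))^2 ≤ 1 + 3/M ≤ 1 + 3/m`, `us m ^ 2 ≤ 4 m/π`, and
`M us m/(k+1/2) + 1 = (M us m/(k+1/2)) (1 + x)`, `x = (k+1/2)/(M us m) ≤ (k+1)/(M √m) ≤ 1`,
`(1+x)^2 ≤ 1 + 3x`. -/
def S_BK : Prop :=
  S_SQ → ∀ m k : ℕ, 1 ≤ m → bb m k m < 0 ∧
    1 / Real.pi * Real.sqrt (((m : ℝ) - 1 / 4) / ((m : ℝ) + k + 1)) / ((k : ℝ) + 1) ≤ -bb m k m ∧
    bb m k m ^ 2 ≤ 1 / Real.pi ^ 2 * (1 + 3 / (m : ℝ)) * ((m : ℝ) / ((m : ℝ) + k + 1)) /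
      ((k : ℝ) + 1 / 2) ^ 2 * (1 + 3 * ((k : ℝ) + 1) / (((m : ℝ) + k + 1) * Real.sqrt m))

/-- SR-TL (80 lines): tails, heads and logarithms. Proof. Comparison with integrals (or telescoping):
`(k+j+1)^(-1-s) ≤ (1/s) ((k+j)^(-s) - (k+j+1)^(-s))` for `k ≥ 1`; `(j+1)^(c-1) ≤ ((j+1)^c - j^c)/c` for
`c ≤ 1`; `1/(k+1/2) ≤ log (k+1) - log k` for `k ≥ 1` (e.g. `log ((1+y)/(1-y)) ≥ 2 y`, `y = 1/(2k+1)`);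
`log (m+1) ≤ H_m`. -/
def S_TL : Prop :=
  (∀ (s : ℝ) (j : ℕ), 0 < s → ∑' k : ℕ, ENNReal.ofReal (((k : ℝ) + j + 1) ^ (-1 - s)) ≤
    ENNReal.ofReal ((1 + 1 / s) * ((j : ℝ) + 1) ^ (-s))) ∧
  (∀ (c : ℝ) (m : ℕ), 0 < c → c ≤ 1 →
    ∑ j ∈ Finset.range m, ((j : ℝ) + 1) ^ (c - 1) ≤ (m : ℝ) ^ c / c) ∧
  (∀ m : ℕ, 1 ≤ m → ∑ k ∈ Finset.range m, 1 / ((k : ℝ) + 1 / 2) ≤ 2 + Real.log m) ∧
  (∀ m : ℕ, 1 ≤ m → Real.log m ≤ ∑ k ∈ Finset.range m, 1 / ((k : ℝ) + 1))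

/-- SR-V1 (120 lines, from BK, TL). Proof. By BK the term is at most
`(1/π²) (1+3/m) (m/M) (M+1)^(1-σ) / (k+1/2) * (1 + 3 (k+1)/(M √m))`. Main part: for `k < m` use
`(m/M) (M+1)^(1-σ) ≤ (m+1)^(1-σ)` (because `((M+1)/(m+1))^(1-σ) ≤ (M+1)/(m+1) ≤ M/m`) and the third part of
TL; for `k ≥ m` the term is `≤ 4 m (k+1)^(-1-σ)`, so by the first part of TL (with `j = m`) the rest is
`≤ 4 (1+1/σ) m (m+1)^(-σ)`. Second part: `(m/M) (M+1)^(1-σ)/(k+1/2) * 3 (k+1)/(M √m) ≤ 12 √m M^(-1-σ)`,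
whose sum is `≤ 12 (1+1/σ) √m (m+1)^(-σ)`. Finally `(3/m) log m ≤ 3`. -/
def S_V1 : Prop :=
  S_SQ → S_BK → S_TL → ∀ σ : ℝ, 1 / 5 ≤ σ → σ < 1 → ∃ C : ℝ, 0 ≤ C ∧ ∀ m : ℕ, 1 ≤ m →
    ∑' k : ℕ, ENNReal.ofReal (((k : ℝ) + 1 / 2) * wt σ (m + k + 1) * bb m k m ^ 2) ≤
      ENNReal.ofReal (wt σ m * (Real.log m / Real.pi ^ 2 + C))

/-- SR-V2 (100 lines, from BK, TL). Proof. By BK the term is `≤ 100 (m/M) (M+1)^(1-σ) / ((k+1) mx)`; for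
`k < m` use `mx ≥ (m/(k+1))^(1/10)`, `(m/M) (M+1)^(1-σ) ≤ (m+1)^(1-σ)` and
`∑_{k<m} (k+1)^(-9/10) ≤ 10 m^(1/10)`; for `k ≥ m` use `mx ≥ 1` and `(m/M) (M+1)^(1-σ)/(k+1) ≤
2 m (k+1)^(-1-σ)`, tail. -/
def S_V2 : Prop :=
  S_SQ → S_BK → S_TL → ∀ σ : ℝ, 1 / 5 ≤ σ → σ < 1 → ∃ C : ℝ, 0 ≤ C ∧ ∀ m : ℕ, 1 ≤ m →
    ∑' k : ℕ, ENNReal.ofReal (((k : ℝ) + 1) * wt σ (m + k + 1) * bb m k m ^ 2 / mx m k) ≤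
      ENNReal.ofReal (C * wt σ m)

/-- SR-V3 (80 lines, from BK, TL). Proof. Summable: by BK `bb m k m ^ 2 ≤ C m (k+1)^(-3)`. Lower bound: all
terms are negative, so `|∑'| ≥ ∑_{k<m} -bb m k m`, and `√x ≥ x` on `[0,1]`,
`(m-1/4)/(m+k+1) = 1 - (k+5/4)/(m+k+1) ≥ 1 - (5/4) (k+1)/m`, so the sum is
`≥ (1/π) (∑_{k<m} 1/(k+1) - 5/4)`, and `5/(4π) ≤ 1/2`. -/
def S_V3 : Prop :=
  S_SQ → S_BK → S_TL → ∀ m : ℕ, 1 ≤ m → (Summable fun k : ℕ => bb m k m) ∧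
    Real.log m / Real.pi - 1 / 2 ≤ |∑' k : ℕ, bb m k m|

/-- SR-PW (120 lines, from SQ). Proof. For `n < m`, `bb m k n ^ 2 ≤ (1/π²) (n/M) (M/(M-1/2))^2 / (M-n-1/2)^2`
and `(M/(M-1/2))^2 (M+1)/M ≤ 1 + 10/m`; so with `j = m - n` the left side is at most `(1+10/m)/π²` times
`(k+1) (M+1)^(-σ) ∑_{1 ≤ j < m} (j+1)^(σ-1) / (k+1+j-1/2)^2 / tr ε m (m-j)`. And `1/tr ≤ 1 + (ε m/n)^(1/2)` if
`n < ε m` (and `1/tr = 1` otherwise); for these `n ≤ m/2`: `(m-n+1)^(σ-1) ≤ 2 m^(σ-1)`,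
`M-n-1/2 ≥ M/2`, `∑_{1 ≤ n < ε m} (ε m/n)^(1/2) ≤ 2 ε m`; so the correction is
`≤ 16 ε (k+1) (M+1)^(-σ) m^σ / M^2`, while `WW σ m (k+1) ≥ (k+1) (M+1)^(-σ) m^σ / M^2`. -/
def S_PW : Prop :=
  S_SQ → ∀ σ ε : ℝ, 0 < σ → σ < 1 → 0 < ε → ε ≤ 1 / 2 → ∀ m k : ℕ, 1 ≤ m →
    ((k : ℝ) + 1) * wt σ (m + k + 1) *
      ∑ n ∈ Finset.Ico 1 m, bb m k n ^ 2 / ((n : ℝ) * wt σ (m - n) * tr ε m n) ≤
    (1 + 10 / (m : ℝ)) * (1 + 32 * ε) / Real.pi ^ 2 * WW σ m (k + 1)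

/-- SR-IV (100 lines, from TL). Proof. `mx m k * (k+1) * (M+1)^(-σ) ≤ (k+1)^(9/10) m^(1/10-σ)` (both for the
entry `1` of the maximum: `(M+1)^(-σ) ≤ m^(1/10-σ) (k+1)^(-1/10)`, and for the other one). Interchange the
sums: `(k+1)^(9/10) / (k+1+j-1/2)^2 ≤ 4 (k+j+1)^(-1-1/10)`, whose sum over `k` is `≤ 44 (j+1)^(-1/10)`;
`∑_{j<m} (j+1)^(σ-1-1/10) ≤ m^(σ-1/10)/(σ-1/10)`. So `C = 44/(σ-1/10)`. -/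
def S_IV : Prop :=
  S_TL → ∀ σ : ℝ, 1 / 5 ≤ σ → σ < 1 → ∃ C : ℝ, 0 ≤ C ∧ ∀ m : ℕ, 1 ≤ m →
    ∑' k : ℕ, ENNReal.ofReal (mx m k * WW σ m (k + 1)) ≤ ENNReal.ofReal C

end Pool.Agent.H64.SR
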